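import Pool.Agent.Q267.AP.Dbl
import Pool.Agent.Q267.ST.All

/-!
# Families of forms through a hyperplane arrangement
-/

set_option autoImplicit false

open Finset

namespace Pool.Agent.Q267.AP

open Pool.Agent.Q267.ST
open Pool.Agent.Q267.DC (hm hm_map det_hm_map)

section supp

variable {n e : ℕ}

lemma wexp_apply (w : Exps n e) (i : Fin (n + 1)) : wexp n e w i = (w.1 i : ℕ) := rfl

lemma wexp_inj (n e : ℕ) : Function.Injective (wexp n e) := by
  intro w w' h
  refine Subtype.ext (funext fun i => Fin.ext ?_)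
  have := DFunLike.congr_fun h i
  exact this

lemma sum_smul (p : ℕ) (u : Fin (n + 1) →₀ ℕ) : ∑ i, (p • u) i = p * ∑ i, u i := by
  rw [mul_sum]
  exact sum_congr rfl fun i _ => rfl

lemma sum_pow {R : Type} [CommRing R] (D : ℕ) (F : MvPolynomial (Fin (n + 1)) R)
    (hF : ∀ u ∈ F.support, ∑ i, u i = D) (e : ℕ) (u : Fin (n + 1) →₀ ℕ)
    (hu : u ∈ (F ^ e).support) : ∑ i, u i = e * D := by
  classical
  induction e generalizing u with
  | zero =>
    rw [pow_zero] at hu
    have h1 : u = 0 := by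
      by_contra h
      rw [MvPolynomial.mem_support_iff, MvPolynomial.coeff_one, if_neg (Ne.symm h)] at hu
      exact hu rfl
    rw [h1]
    simp
  | succ e ih =>
    rw [pow_succ] at hu
    obtain ⟨a, ha, b, hb, hab⟩ := mem_add.mp (MvPolynomial.support_mul _ _ hu)
    have h1 := ih a ha
    have h2 := hF b hb
    rw [← hab]
    simp only [Finsupp.add_apply, sum_add_distrib]
    rw [h1, h2]
    ring

lemma supp_cond {R : Type} [CommRing R] {m p e' : ℕ} (hp : p ≠ 0)
    (he : e' * m + 1 = p) (F : MvPolynomial (Fin (n + 1)) R)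
    (hF : ∀ u ∈ F.support, ∑ i, u i = m * e) (l : Exps n e) (v : Fin (n + 1) →₀ ℕ)
    (hv : v ∈ (MvPolynomial.monomial (wexp n e l) 1 * F ^ e').support)
    (hv' : ∃ v' : Fin (n + 1) →₀ ℕ, v = p • v') :
    ∃ i : Exps n e, v = p • wexp n e i := by
  classical
  obtain ⟨v', rfl⟩ := hv'
  obtain ⟨b, hb, u, hu, hbu⟩ := mem_add.mp (MvPolynomial.support_mul _ _ hv)
  have hb' := mem_singleton.mp (MvPolynomial.support_monomial_subset hb)
  rw [hb'] at hbu
  have h1 := sum_pow (m * e) F hF e' u hu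
  have h2 : ∑ i, wexp n e l i = e := l.2.2
  have h3 : p * ∑ i, v' i = p * e := by
    have h4 : ∑ i, (wexp n e l + u) i = ∑ i, (p • v') i := by rw [hbu]
    rw [sum_smul] at h4
    simp only [Finsupp.add_apply, sum_add_distrib] at h4
    rw [h1, h2] at h4
    rw [← h4, ← he]
    ring
  have h4 : ∑ i, v' i = e := Nat.eq_of_mul_eq_mul_left (Nat.pos_of_ne_zero hp) h3
  have h5 : ∀ i, 0 < v' i := by
    intro i
    have h6 := DFunLike.congr_fun hbu i
    rw [Finsupp.add_apply, Finsupp.smul_apply, smul_eq_mul] at h6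
    have h7 := l.2.1 i
    rw [wexp_apply] at h6
    by_contra h8
    have h9 : v' i = 0 := by omega
    rw [h9, mul_zero] at h6
    omega
  have h6 : ∀ i, v' i < e + 1 := by
    intro i
    have h7 : v' i ≤ ∑ i, v' i :=
      single_le_sum (f := fun i => v' i) (fun _ _ => Nat.zero_le _) (mem_univ i)
    omega
  refine ⟨⟨fun i => ⟨v' i, h6 i⟩, h5, h4⟩, ?_⟩
  congr 1
  ext i
  rfl

end supp

/-- The families with an arrangement at `0`, over a ring. -/
theorem conc (hNorm : S_Norm) (hConst : S_Const) (hPerD : S_PerD) (hStar : S_Star)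
    (hCharts : S_Charts) (n e m : ℕ) (hm12 : m = 1 ∨ m = 2) {A : Type} [CommRing A] [IsDomain A]
    [CharZero A] (l : Fin e → Fin (n + 1) → A)
    (hl : ∀ σ : Fin (n + 1) → Fin e, Function.Injective σ →
      IsUnit (Matrix.of fun i j => l (σ i) j).det) (μ : A) (hμ : (m : A) ^ 2 * μ = 1)
    (f : MvPolynomial (Fin (n + 1)) (Polynomial A)) (hf : ∀ u ∈ f.support, ∑ i, u i = m * e)
    (hf0 : MvPolynomial.map (Polynomial.evalRingHom 0) f = (∏ i, lf (l i)) ^ m)
    (ε : ℝ) (hε : 0 < ε) :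
    ∃ (p₀ : ℕ) (a : A), a ≠ 0 ∧ ∀ (p : ℕ) (k : Type) [Field k] [CharP k p] (φ : A →+* k),
      p.Prime → p₀ ≤ p → φ a ≠ 0 → ∀ e' : ℕ, e' * m + 1 = p →
      ∀ Z : Finset k, (∀ t ∈ Z, t ^ p = t ∧ (hm e' p (wexp n e) (MvPolynomial.map
        (Polynomial.mapRingHom φ) f)).det.eval t = 0) → (Z.card : ℝ) ≤ ε * p := by
  classical
  obtain ⟨M, r, hMr, hV⟩ := hCharts n e A l hl
  obtain ⟨g, hg⟩ : ∃ g : MvPolynomial (Fin (n + 1)) (Polynomial A),
      f = MvPolynomial.map Polynomial.C (∏ i, lf (l i)) ^ m + MvPolynomial.C Polynomial.X * g := by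
    refine ⟨∑ v ∈ f.support, MvPolynomial.monomial v (MvPolynomial.coeff v f).divX, ?_⟩
    rw [← map_pow, ← hf0]
    ext1 v
    rw [MvPolynomial.coeff_add, MvPolynomial.coeff_map, MvPolynomial.coeff_map,
      MvPolynomial.coeff_C_mul, MvPolynomial.coeff_sum]
    have h1 : ∑ u ∈ f.support, MvPolynomial.coeff v
        (MvPolynomial.monomial u (MvPolynomial.coeff u f).divX) = (MvPolynomial.coeff v f).divX := by
      rw [Finset.sum_eq_single v]
      · rw [MvPolynomial.coeff_monomial, if_pos rfl]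
      · intro u _ hu
        rw [MvPolynomial.coeff_monomial, if_neg hu]
      · intro hv
        rw [MvPolynomial.notMem_support_iff.mp hv]
        simp
    rw [h1, Polynomial.coe_evalRingHom, ← Polynomial.coeff_zero_eq_eval_zero]
    refine (Polynomial.X_mul_divX_add (MvPolynomial.coeff v f)).symm.trans ?_
    rw [_root_.add_comm]
  have hc : ∀ j, ∃ c' : A, MvPolynomial.coeff (Finsupp.single 0 (e - n)) (r j) * c' = 1 :=
    fun j => (hMr j).2.2.2.exists_right_inv
  choose c' hc' using hc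
  obtain ⟨p₀, a, ha, h⟩ := soft2 soft_stepanov lip Pool.Agent.Q121.ST.dfAdd
    Pool.Agent.Q121.ST.dfMul Pool.Agent.Q121.ST.dfPoly Pool.Agent.Q121.ST.dfToODE
    Pool.Agent.Q225.ST.root hNorm hConst hPerD hStar (0 : Fin (n + 1)) m (e - n) hm12
    (wexp n e) (wexp_inj n e) (fun j i => (j.2.1 i : 1 ≤ (j.1 i : ℕ)))
    (fun j => by
      have h1 : ∑ i, wexp n e j i = e := j.2.2
      have h2 : ∑ i : Fin (n + 1), 1 ≤ ∑ i, wexp n e j i := sum_le_sum fun i _ => j.2.1 i
      rw [sum_const, card_univ, Fintype.card_fin, smul_eq_mul, mul_one] at h2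
      rw [Fintype.card_fin]
      omega) μ hμ
    (fun j => MvPolynomial.coeff (Finsupp.single 0 (e - n)) (r j)) c' hc' M
    (fun j => (hMr j).1) (∏ i, lf (l i)) r g (fun j => (hMr j).2.1) (fun j => (hMr j).2.2.1)
    (fun j => rfl) hV ε hε (f.support.sup fun v => (MvPolynomial.coeff v f).natDegree)
    (fun v => by
      rw [← hg]
      by_cases hv : v ∈ f.support
      · exact le_sup (f := fun v => (MvPolynomial.coeff v f).natDegree) hv
      · rw [MvPolynomial.notMem_support_iff.mp hv, Polynomial.natDegree_zero]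
        exact Nat.zero_le _)
  rw [← hg] at h
  refine ⟨p₀, a, ha, ?_⟩
  intro p k _ _ φ hpp hp0 hφ e' he Z hZ
  exact h p k φ hpp hp0 hφ e' he (fun l v hv hv' => supp_cond hpp.ne_zero he _
    (fun u hu => hf u (MvPolynomial.support_map_subset _ _ hu)) l v hv hv') Z hZ

end Pool.Agent.Q267.AP
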