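import Pool.Agent.Q267.AP.Soft

/-!
# All values of the parameter
-/

set_option autoImplicit false

open Finset

namespace Pool.Agent.Q267.AP

open Pool.Agent.Q267.ST
open Pool.Agent.Q267.DC (hm hm_map det_hm_map)

/-- The double counting. -/
lemma dbl {k : Type} [Field k] {p : ℕ} (hpp : p.Prime) [CharP k p] (N d : ℕ) (ε : ℝ)
    (hε0 : 0 ≤ ε) (B Z : Finset k) (hB : B.card ≤ d) (hZ : ∀ t ∈ Z, t ^ p = t)
    (H : ∀ g : k, g ^ p = g → g ∉ B → ∀ T : Finset k,
      (∀ s ∈ T, s ^ p = s ∧ g * s ^ N ∈ Z) → (T.card : ℝ) ≤ ε * p) :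
    ((Z.card : ℝ) - 1) * (p - 1) ≤ ε * p * p + d * p := by
  classical
  have hfact : Fact p.Prime := ⟨hpp⟩
  -- the fixed field
  have hne : (Polynomial.X ^ p - Polynomial.X : Polynomial k) ≠ 0 :=
    FiniteField.X_pow_card_sub_X_ne_zero k hpp.one_lt
  set F : Finset k := (Polynomial.X ^ p - Polynomial.X : Polynomial k).roots.toFinset with hF
  have hmem : ∀ x : k, x ∈ F ↔ x ^ p = x := by
    intro x
    rw [hF, Multiset.mem_toFinset, Polynomial.mem_roots hne]
    simp [sub_eq_zero]
  have hF1 : F.card ≤ p := by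
    refine (Multiset.toFinset_card_le _).trans ((Polynomial.card_roots' _).trans ?_)
    rw [FiniteField.X_pow_card_sub_X_natDegree_eq k hpp.one_lt]
  have hF2 : p ≤ F.card := by
    have h1 : ((range p).image fun n : ℕ => (n : k)) ⊆ F := by
      intro x hx
      obtain ⟨n, _, rfl⟩ := mem_image.mp hx
      rw [hmem]
      have := frobenius_def p (n : k)
      rw [← this, map_natCast]
    have h2 : ((range p).image fun n : ℕ => (n : k)).card = p := by
      rw [card_image_of_injOn, card_range]
      intro a ha b hb h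
      have ha' := mem_range.mp (mem_coe.mp ha)
      have hb' := mem_range.mp (mem_coe.mp hb)
      have h3 := (CharP.cast_eq_iff_mod_eq k p).mp h
      rwa [Nat.mod_eq_of_lt ha', Nat.mod_eq_of_lt hb'] at h3
    rw [← h2]
    exact card_le_card h1
  have h0F : (0 : k) ∈ F := by rw [hmem, zero_pow hpp.ne_zero]
  have hFs : (F.erase 0).card = p - 1 := by
    rw [card_erase_of_mem h0F]
    omega
  have hZs : (Z.card : ℝ) - 1 ≤ ((Z.erase 0).card : ℝ) := by
    have h1 : Z.card ≤ (Z.erase 0).card + 1 := by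
      have := pred_card_le_card_erase (s := Z) (a := (0 : k))
      omega
    have h2 : (Z.card : ℝ) ≤ (Z.erase 0).card + 1 := by exact_mod_cast h1
    linarith
  -- the pairs
  set Pr : Finset (k × k) := (Z.erase 0) ×ˢ (F.erase 0) with hPr
  have hPrc : Pr.card = (Z.erase 0).card * (p - 1) := by rw [hPr, card_product, hFs]
  have hmap : ∀ x ∈ Pr, x.1 / x.2 ^ N ∈ F := by
    intro x hx
    rw [hPr, mem_product] at hx
    rw [hmem, div_pow, hZ _ (mem_of_mem_erase hx.1), ← pow_mul, mul_comm N p, pow_mul,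
      (hmem _).mp (mem_of_mem_erase hx.2)]
  have hfib : ∀ g ∈ F, ((Pr.filter fun x => x.1 / x.2 ^ N = g).card : ℝ) ≤
      ε * p + if g ∈ B then (p : ℝ) else 0 := by
    intro g hg
    set Tg := (Pr.filter fun x => x.1 / x.2 ^ N = g).image Prod.snd with hTg
    have hrel : ∀ x ∈ Pr.filter (fun x => x.1 / x.2 ^ N = g), x.1 = g * x.2 ^ N := by
      intro x hx
      rw [mem_filter, hPr, mem_product] at hx
      have hx0 : x.2 ^ N ≠ 0 := pow_ne_zero _ (ne_of_mem_erase hx.1.2)
      rw [← hx.2, div_mul_cancel₀ _ hx0]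
    have hcard : (Pr.filter fun x => x.1 / x.2 ^ N = g).card = Tg.card := by
      rw [hTg, card_image_of_injOn]
      intro x hx y hy h
      have h1 := hrel x (mem_coe.mp hx)
      have h2 := hrel y (mem_coe.mp hy)
      have h' : x.2 = y.2 := h
      refine Prod.ext ?_ h
      rw [h1, h2, h']
    have hTF : ∀ s ∈ Tg, s ^ p = s ∧ g * s ^ N ∈ Z := by
      intro s hs
      obtain ⟨x, hx, rfl⟩ := mem_image.mp hs
      rw [← hrel x hx]
      rw [mem_filter, hPr, mem_product] at hx
      exact ⟨(hmem _).mp (mem_of_mem_erase hx.1.2), mem_of_mem_erase hx.1.1⟩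
    rw [hcard]
    by_cases hgB : g ∈ B
    · rw [if_pos hgB]
      have h1 : Tg ⊆ F := fun s hs => (hmem s).mpr (hTF s hs).1
      have h2 : (Tg.card : ℝ) ≤ p := by exact_mod_cast (card_le_card h1).trans hF1
      have h3 : 0 ≤ ε * p := by positivity
      linarith
    · rw [if_neg hgB, add_zero]
      exact H g ((hmem g).mp hg) hgB Tg hTF
  have hsum : (Pr.card : ℝ) ≤ ε * p * p + d * p := by
    rw [card_eq_sum_card_fiberwise (f := fun x : k × k => x.1 / x.2 ^ N) (t := F) hmap]
    push_cast
    refine (sum_le_sum hfib).trans ?_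
    rw [sum_add_distrib, sum_const, nsmul_eq_mul, ← sum_filter, sum_const, nsmul_eq_mul]
    have h1 : ((F.filter fun g => g ∈ B).card : ℝ) ≤ d := by
      have : (F.filter fun g => g ∈ B).card ≤ B.card := card_le_card fun g hg =>
        (mem_filter.mp hg).2
      exact_mod_cast this.trans hB
    have h2 : (F.card : ℝ) ≤ p := by exact_mod_cast hF1
    have h3 : (0 : ℝ) ≤ p := Nat.cast_nonneg _
    have h4 : 0 ≤ ε * p := by positivity
    calc (F.card : ℝ) * (ε * p) + ((F.filter fun g => g ∈ B).card : ℝ) * p ≤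
          p * (ε * p) + d * p := add_le_add (mul_le_mul_of_nonneg_right h2 h4)
            (mul_le_mul_of_nonneg_right h1 h3)
      _ = _ := by ring
  have hp1 : ((p - 1 : ℕ) : ℝ) = (p : ℝ) - 1 := by
    rw [Nat.cast_sub hpp.one_le, Nat.cast_one]
  have hp0 : (0 : ℝ) ≤ (p : ℝ) - 1 := by
    rw [← hp1]
    exact Nat.cast_nonneg _
  calc ((Z.card : ℝ) - 1) * (p - 1) ≤ ((Z.erase 0).card : ℝ) * (p - 1) :=
        mul_le_mul_of_nonneg_right hZs hp0
    _ = (Pr.card : ℝ) := by
        rw [hPrc, Nat.cast_mul, hp1]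
    _ ≤ _ := hsum

section two

variable {ι J : Type} [Fintype ι] [DecidableEq ι] [Fintype J] [DecidableEq J]
variable {A : Type} [CommRing A] [IsDomain A] [CharZero A]

omit [IsDomain A] [CharZero A] [DecidableEq ι] in
lemma lin_map_C (M : Matrix ι ι A) (h : MvPolynomial ι A) {B : Type} [CommRing B] (φ : A →+* B) :
    lin (M.map φ) (MvPolynomial.map φ h) = MvPolynomial.map φ (lin M h) := by
  have h1 : (lin (M.map φ)).comp (MvPolynomial.map φ) = (MvPolynomial.map φ).comp (lin M) := by
    apply MvPolynomial.ringHom_ext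
    · intro a
      simp [lin]
    · intro i
      simp [lin]
  exact RingHom.congr_fun h1 h

/-- **The soft Stepanov theorem for families through a hyperplane arrangement.** -/
theorem soft2 (hSoft : S_Soft) (hLip : S_Lip) (hadd : S_DFadd) (hmul : S_DFmul)
    (hpoly : S_DFpoly) (hto : S_DFtoODE) (hroot : S_Root) (hNorm : S_Norm) (hConst : S_Const)
    (hPerD : S_PerD) (hStar : S_Star)
    (o : ι) (m E : ℕ) (hm12 : m = 1 ∨ m = 2)
    (w : J → ι →₀ ℕ) (hw : Function.Injective w) (hw1 : ∀ j i, 1 ≤ w j i)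
    (hwE : ∀ j, ∑ i, w j i = E + (Fintype.card ι - 1))
    (μ : A) (hμ : (m : A) ^ 2 * μ = 1) (c c' : J → A) (hc : ∀ j, c j * c' j = 1)
    (M : J → Matrix ι ι A) (hM : ∀ j, IsUnit (M j).det) (h : MvPolynomial ι A)
    (r : J → MvPolynomial ι A) (g : MvPolynomial ι (Polynomial A))
    (hr : ∀ j, lin (M j) h = (∏ i ∈ univ.erase o, MvPolynomial.X i) * r j)
    (hrE : ∀ j, ∀ u ∈ (r j).support, ∑ i, u i = E)
    (hrc : ∀ j, MvPolynomial.coeff (Finsupp.single o E) (r j) = c j)
    (hV : (vert o w M).det ≠ 0) (ε : ℝ) (hε : 0 < ε) (H : ℕ)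
    (hH : ∀ v, (MvPolynomial.coeff v (MvPolynomial.map Polynomial.C h ^ m +
      MvPolynomial.C Polynomial.X * g)).natDegree ≤ H) :
    ∃ (p₀ : ℕ) (a : A), a ≠ 0 ∧ ∀ (p : ℕ) (k : Type) [Field k] [CharP k p] (φ : A →+* k),
      p.Prime → p₀ ≤ p → φ a ≠ 0 → ∀ e : ℕ, e * m + 1 = p →
      (∀ l, ∀ v ∈ (MvPolynomial.monomial (w l) 1 *
        (MvPolynomial.map (Polynomial.mapRingHom φ) (MvPolynomial.map Polynomial.C h ^ m +
          MvPolynomial.C Polynomial.X * g)) ^ e).support,
        (∃ v' : ι →₀ ℕ, v = p • v') → ∃ i, v = p • w i) →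
      ∀ Z : Finset k, (∀ t ∈ Z, t ^ p = t ∧ (hm e p w (MvPolynomial.map
        (Polynomial.mapRingHom φ) (MvPolynomial.map Polynomial.C h ^ m +
          MvPolynomial.C Polynomial.X * g))).det.eval t = 0) →
      (Z.card : ℝ) ≤ ε * p := by
  classical
  set f := MvPolynomial.map Polynomial.C h ^ m + MvPolynomial.C Polynomial.X * g with hf
  set f' : MvPolynomial ι (Polynomial (Polynomial A)) :=
    MvPolynomial.map Polynomial.C (MvPolynomial.map Polynomial.C h) ^ m +
      MvPolynomial.C Polynomial.X *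
        MvPolynomial.map (Polynomial.mapRingHom (Polynomial.C : A →+* Polynomial A)) g with hf'
  have hff : f' = MvPolynomial.map (Polynomial.mapRingHom (Polynomial.C : A →+* Polynomial A)) f := by
    rw [hf, map_add, map_mul, map_pow, MvPolynomial.map_C, Polynomial.coe_mapRingHom,
      Polynomial.map_X, hf', MvPolynomial.map_map, MvPolynomial.map_map]
    have h0 : (Polynomial.C : Polynomial A →+* _).comp (Polynomial.C : A →+* Polynomial A) =
        (Polynomial.mapRingHom (Polynomial.C : A →+* Polynomial A)).comp Polynomial.C := by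
      ext a
      simp
    rw [h0]
  have hH' : ∀ v, (MvPolynomial.coeff v f').natDegree ≤ H := by
    intro v
    rw [hff, MvPolynomial.coeff_map, Polynomial.coe_mapRingHom]
    exact (Polynomial.natDegree_map_le).trans (hH v)
  have hV' : (vert o w (fun j => (M j).map (Polynomial.C : A →+* Polynomial A))).det ≠ 0 := by
    have h1 : vert o w (fun j => (M j).map (Polynomial.C : A →+* Polynomial A)) =
        (vert o w M).map (Polynomial.C : A →+* Polynomial A) := by
      ext1 j l
      rw [Matrix.map_apply]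
      change MvPolynomial.eval (fun i => (Polynomial.C (M j i o) : Polynomial A))
        (MvPolynomial.monomial (w l - one ι) (1 : Polynomial A)) = Polynomial.C
          (MvPolynomial.eval (fun i => M j i o) (MvPolynomial.monomial (w l - one ι) (1 : A)))
      rw [MvPolynomial.eval_monomial, MvPolynomial.eval_monomial, one_mul, one_mul, Finsupp.prod,
        Finsupp.prod, map_prod]
      exact prod_congr rfl fun i _ => by rw [map_pow]
    rw [h1]
    have h2 := RingHom.map_det (Polynomial.C : A →+* Polynomial A) (vert o w M)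
    have h3 : ((vert o w M).map (Polynomial.C : A →+* Polynomial A)).det =
        Polynomial.C (vert o w M).det := h2.symm
    rw [h3]
    exact Polynomial.C_ne_zero.mpr hV
  obtain ⟨p₁, a', ha', hS⟩ := soft1 hSoft hLip hadd hmul hpoly hto hroot hNorm hConst hPerD hStar
    o m E (m * (Fintype.card ι - 1) + 1) hm12 le_rfl w hw hw1 hwE (Polynomial.C μ)
    (Polynomial.X : Polynomial A)
    (by rw [← Polynomial.C_eq_natCast, ← Polynomial.C_pow, ← Polynomial.C_mul, hμ,
      Polynomial.C_1])
    (fun j => Polynomial.C (c j)) (fun j => Polynomial.C (c' j))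
    (fun j => by rw [← Polynomial.C_mul, hc j, Polynomial.C_1])
    (fun j => (M j).map (Polynomial.C : A →+* Polynomial A))
    (fun j => by
      have h1 := (hM j).map (Polynomial.C : A →+* Polynomial A)
      rw [RingHom.map_det] at h1
      exact h1)
    (MvPolynomial.map Polynomial.C h) (fun j => MvPolynomial.map Polynomial.C (r j))
    (MvPolynomial.map (Polynomial.mapRingHom (Polynomial.C : A →+* Polynomial A)) g)
    (fun j => by
      rw [lin_map_C, hr j, map_mul, map_prod]
      congr 1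
      exact prod_congr rfl fun i _ => MvPolynomial.map_X _ _)
    (fun j u hu => hrE j u (MvPolynomial.support_map_subset _ _ hu))
    (fun j => by rw [MvPolynomial.coeff_map, hrc j])
    hV' (ε / 4) (by positivity) H hH'
  refine ⟨max (max p₁ 2) (⌈(2 * (2 * (a'.natDegree : ℝ) + 1)) / ε⌉₊), a'.leadingCoeff,
    Polynomial.leadingCoeff_ne_zero.mpr ha', ?_⟩
  intro p k _ _ φ hpp hp0 hφ e he hsupp Z hZ
  have hp1 : p₁ ≤ p := (le_max_left _ _).trans ((le_max_left _ _).trans hp0)
  have hp3 : (2 * (2 * (a'.natDegree : ℝ) + 1)) / ε ≤ p :=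
    (Nat.le_ceil _).trans (by exact_mod_cast (le_max_right _ _).trans hp0)
  have hp2 : (2 : ℝ) ≤ p := by exact_mod_cast hpp.two_le
  have hak : a'.map φ ≠ 0 := by
    intro h0
    have h1 := congrArg (fun q => Polynomial.coeff q a'.natDegree) h0
    simp only [Polynomial.coeff_map, Polynomial.coeff_zero] at h1
    exact hφ h1
  have hBc : (a'.map φ).roots.toFinset.card ≤ a'.natDegree :=
    (Multiset.toFinset_card_le _).trans ((Polynomial.card_roots' _).trans
      Polynomial.natDegree_map_le)
  have hfk : ∀ g₀ : k, MvPolynomial.map (Polynomial.mapRingHom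
      (Polynomial.eval₂RingHom φ g₀)) f' = MvPolynomial.map (Polynomial.mapRingHom φ) f := by
    intro g₀
    rw [hff, MvPolynomial.map_map]
    refine RingHom.congr_fun (congrArg _ ?_) f
    rw [Polynomial.mapRingHom_comp]
    congr 1
    ext a
    simp
  have key := dbl hpp (m * (Fintype.card ι - 1) + 1) a'.natDegree (ε / 4) (by positivity)
    (a'.map φ).roots.toFinset Z hBc (fun t ht => (hZ t ht).1)
    (fun g₀ hg₀ hgB T hT => by
      have hφ' : Polynomial.eval₂RingHom φ g₀ a' ≠ 0 := by
        rw [Polynomial.coe_eval₂RingHom, ← Polynomial.eval_map]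
        intro h0
        apply hgB
        rw [Multiset.mem_toFinset, Polynomial.mem_roots hak]
        exact h0
      refine hS p k (Polynomial.eval₂RingHom φ g₀) hpp hp1 hφ' e he ?_ T ?_
      · change ∀ l, ∀ v ∈ (MvPolynomial.monomial (w l) 1 *
          (MvPolynomial.map (Polynomial.mapRingHom (Polynomial.eval₂RingHom φ g₀)) f') ^ e).support,
          (∃ v' : ι →₀ ℕ, v = p • v') → ∃ i, v = p • w i
        rw [hfk g₀]
        exact hsupp
      · intro s hs
        obtain ⟨hs1, hs2⟩ := hT s hs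
        refine ⟨hs1, ?_⟩
        change (hm e p w (MvPolynomial.map (Polynomial.mapRingHom
          (Polynomial.eval₂RingHom φ g₀)) f')).det.eval _ = 0
        rw [hfk g₀, Polynomial.coe_eval₂RingHom, Polynomial.eval₂_X]
        exact (hZ _ hs2).2)
  have h4 : (2 * (2 * (a'.natDegree : ℝ) + 1)) ≤ p * ε := by
    rwa [div_le_iff₀ hε] at hp3
  have hpos : (0 : ℝ) < (p : ℝ) - 1 := by linarith
  have h5 : ε / 4 * p * p + a'.natDegree * p ≤ (ε * p - 1) * (p - 1) := by
    have hd : (0 : ℝ) ≤ a'.natDegree := Nat.cast_nonneg _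
    nlinarith [mul_le_mul_of_nonneg_right h4 (by linarith : (0 : ℝ) ≤ (p : ℝ)),
      mul_nonneg hε.le (mul_nonneg (by linarith : (0 : ℝ) ≤ (p : ℝ))
        (by linarith : (0 : ℝ) ≤ (p : ℝ) - 2)), mul_nonneg hd (by linarith : (0 : ℝ) ≤ (p : ℝ) - 2)]
  have h6 := le_of_mul_le_mul_right (key.trans h5) hpos
  linarith

end two

end Pool.Agent.Q267.AP
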