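import Pool.Agent.Q267.ST.Stm

/-!
# Definitions for families through a hyperplane arrangement
-/

set_option autoImplicit false

open Finset

namespace Pool.Agent.Q267.AP

open Pool.Agent.Q267.ST

/-- The exponent `(1, ..., 1)`. -/
noncomputable def one (ι : Type) [Fintype ι] : ι →₀ ℕ := Finsupp.equivFunOnFinite.symm fun _ => 1

/-- The linear substitution `x_i ↦ ∑_j M_(i, j) x_j`. -/
noncomputable def lin {ι R : Type} [Fintype ι] [CommRing R] (M : Matrix ι ι R) :
    MvPolynomial ι R →+* MvPolynomial ι R :=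
  MvPolynomial.eval₂Hom MvPolynomial.C fun i => ∑ j, MvPolynomial.C (M i j) * MvPolynomial.X j

open Classical in
/-- The Cartier operator: the coefficient of `x ^ u` in `U p g` is the coefficient of
`x ^ (p u + (p - 1, ..., p - 1))` in `g`. -/
noncomputable def U {ι R : Type} [Fintype ι] [CommRing R] (p : ℕ) (g : MvPolynomial ι R) :
    MvPolynomial ι R :=
  ∑ v ∈ g.support.filter (fun v => ∀ i, v i % p = p - 1),
    MvPolynomial.monomial (v.mapRange (· / p) (Nat.zero_div p)) (MvPolynomial.coeff v g)

/-- The scaling `x_i ↦ S ^ (ω_i) x_i` and `s ↦ γ S ^ N` (the variable of the coefficients is `s`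
before and `S` after the scaling). -/
noncomputable def scal {ι A : Type} [CommRing A] (ω : ι → ℕ) (γ : A) (N : ℕ) :
    MvPolynomial ι (Polynomial A) →+* MvPolynomial ι (Polynomial A) :=
  MvPolynomial.eval₂Hom (MvPolynomial.C.comp
      (Polynomial.eval₂RingHom Polynomial.C (Polynomial.C γ * Polynomial.X ^ N)))
    fun i => MvPolynomial.C (Polynomial.X ^ ω i) * MvPolynomial.X i

/-- The polynomial `F` in the chart `M`, as a power series in `S` over the Laurent polynomials. -/
noncomputable def chart {ι A : Type} [Fintype ι] [DecidableEq ι] [CommRing A] (ω : ι → ℕ) (γ : A)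
    (N : ℕ) (M : Matrix ι ι A) : MvPolynomial ι (Polynomial A) →+* PowerSeries (LP ι A) :=
  (toL.comp (scal ω γ N)).comp (lin (M.map Polynomial.C))

/-- The period: the coefficient of `z ^ (-1)` in `x ^ (w - 1) Ψ` in the chart `M`. -/
noncomputable def per {ι A : Type} [Fintype ι] [DecidableEq ι] [CommRing A] (ω : ι → ℕ)
    (M : Matrix ι ι A) (Ψ : PowerSeries (LP ι A)) (w : ι →₀ ℕ) : PowerSeries A :=
  cx (fun _ => -1) (chart ω 0 0 M (MvPolynomial.monomial (w - one ι) 1) * Ψ)

/-- A linear form. -/
noncomputable def lf {ι R : Type} [Fintype ι] [CommRing R] (l : ι → R) : MvPolynomial ι R :=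
  ∑ j, MvPolynomial.C (l j) * MvPolynomial.X j

end Pool.Agent.Q267.AP
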