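import Pool.Agent.Q267.AP.Stm
import Pool.Agent.Q299.ST.Frob
import Pool.Agent.Q267.ST.Red

/-!
# The Frobenius and the reduction of periods
-/

set_option autoImplicit false

open Finset

namespace Pool.Agent.Q267.AP

open Pool.Agent.Q267.ST

theorem frobG : S_FrobG := by
  intro ι k _ _ _ p _ _ hp Ψ
  have : CharP (LP ι k) p :=
    charP_of_injective_algebraMap (FaithfulSMul.algebraMap_injective k (LP ι k)) p
  have key : Ψ ^ p = PowerSeries.map (frobenius (LP ι k) p) (PowerSeries.expand p hp Ψ) :=
    (MvPowerSeries.map_frobenius_expand p hp (f := Ψ)).symm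
  have h1 : ∀ n, PowerSeries.coeff (p * n) (Ψ ^ p) = (PowerSeries.coeff n Ψ) ^ p := by
    intro n
    rw [key, PowerSeries.coeff_map, PowerSeries.coeff_expand_mul, frobenius_def]
  have h2 : ∀ n, ¬ p ∣ n → PowerSeries.coeff n (Ψ ^ p) = 0 := by
    intro n hn
    rw [key, PowerSeries.coeff_map, PowerSeries.coeff_expand_of_not_dvd p hp _ hn, map_zero]
  refine ⟨fun u => ?_, fun v hv => ?_⟩
  · ext n
    by_cases hn : p ∣ n
    · obtain ⟨m, rfl⟩ := hn
      rw [PowerSeries.coeff_expand_mul, PowerSeries.coeff_map]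
      simp only [cx, PowerSeries.coeff_mk]
      rw [h1, (Pool.Agent.Q299.ST.lp_pow ι k p _).1 u, frobenius_def]
    · rw [PowerSeries.coeff_expand_of_not_dvd p hp _ hn]
      simp only [cx, PowerSeries.coeff_mk]
      rw [h2 n hn]; rfl
  · ext n
    simp only [cx, PowerSeries.coeff_mk, map_zero]
    by_cases hn : p ∣ n
    · obtain ⟨m, rfl⟩ := hn
      rw [h1, (Pool.Agent.Q299.ST.lp_pow ι k p _).2 v hv]
    · rw [h2 n hn]; rfl

section map

variable {ι A B : Type} [Fintype ι] [DecidableEq ι] [CommRing A] [CommRing B]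

omit [DecidableEq ι] in
lemma lin_map (φ : A →+* B) (M : Matrix ι ι A) (F : MvPolynomial ι A) :
    MvPolynomial.map φ (lin M F) = lin (M.map φ) (MvPolynomial.map φ F) := by
  unfold lin
  induction F using MvPolynomial.induction_on with
  | C a => simp
  | add p q hp hq => simp only [map_add, hp, hq]
  | mul_X p i hp =>
    rw [map_mul, map_mul, hp, map_mul, map_mul, MvPolynomial.map_X]
    congr 1
    simp

omit [Fintype ι] [DecidableEq ι] in
lemma scal_map (φ : A →+* B) (ω : ι → ℕ) (γ : A) (N : ℕ) (F : MvPolynomial ι (Polynomial A)) :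
    MvPolynomial.map (Polynomial.mapRingHom φ) (scal ω γ N F) =
      scal ω (φ γ) N (MvPolynomial.map (Polynomial.mapRingHom φ) F) := by
  unfold scal
  induction F using MvPolynomial.induction_on with
  | C a =>
    simp only [MvPolynomial.coe_eval₂Hom, MvPolynomial.eval₂_C, MvPolynomial.map_C,
      RingHom.comp_apply]
    congr 1
    rw [Polynomial.coe_eval₂RingHom, Polynomial.coe_eval₂RingHom, Polynomial.hom_eval₂,
      Polynomial.coe_mapRingHom, Polynomial.eval₂_map]
    congr 1
    · ext x
      simp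
    · simp
  | add p q hp hq => simp only [map_add, hp, hq]
  | mul_X p i hp =>
    rw [map_mul, map_mul, hp, map_mul, map_mul, MvPolynomial.map_X]
    congr 1
    simp

lemma chart_map (φ : A →+* B) (ω : ι → ℕ) (γ : A) (N : ℕ) (M : Matrix ι ι A)
    (F : MvPolynomial ι (Polynomial A)) :
    chart ω (φ γ) N (M.map φ) (MvPolynomial.map (Polynomial.mapRingHom φ) F) =
      PowerSeries.map (LPm φ) (chart ω γ N M F) := by
  have hM : (M.map φ).map (Polynomial.C : B →+* Polynomial B) =
      (M.map (Polynomial.C : A →+* Polynomial A)).map (Polynomial.mapRingHom φ) := by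
    ext1 i j
    rw [Matrix.map_apply, Matrix.map_apply, Matrix.map_apply, Matrix.map_apply,
      Polynomial.coe_mapRingHom, Polynomial.map_C]
  unfold chart
  rw [RingHom.comp_apply, RingHom.comp_apply, RingHom.comp_apply, RingHom.comp_apply, ← toL_map,
    scal_map, lin_map, hM]

lemma chart_one (ω : ι → ℕ) (γ : A) (N : ℕ) (M : Matrix ι ι A) (v : ι →₀ ℕ) :
    chart ω γ N M (MvPolynomial.monomial v 1) = chart ω 0 0 M (MvPolynomial.monomial v 1) := by
  unfold chart
  simp only [RingHom.comp_apply]
  congr 1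
  have h1 : lin (M.map Polynomial.C) (MvPolynomial.monomial v (1 : Polynomial A)) =
      MvPolynomial.map Polynomial.C (lin M (MvPolynomial.monomial v 1)) := by
    rw [lin_map, MvPolynomial.map_monomial, Polynomial.C_1]
  rw [h1]
  generalize lin M (MvPolynomial.monomial v 1) = Q
  have h2 : (scal ω γ N).comp (MvPolynomial.map (Polynomial.C : A →+* Polynomial A)) =
      (scal ω 0 0).comp (MvPolynomial.map Polynomial.C) := by
    refine MvPolynomial.ringHom_ext (fun a => ?_) fun i => ?_
    · rw [RingHom.comp_apply, RingHom.comp_apply, MvPolynomial.map_C]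
      unfold scal
      rw [MvPolynomial.coe_eval₂Hom, MvPolynomial.eval₂_C, MvPolynomial.coe_eval₂Hom,
        MvPolynomial.eval₂_C, RingHom.comp_apply, RingHom.comp_apply,
        Polynomial.coe_eval₂RingHom, Polynomial.coe_eval₂RingHom, Polynomial.eval₂_C,
        Polynomial.eval₂_C]
    · rw [RingHom.comp_apply, RingHom.comp_apply, MvPolynomial.map_X]
      unfold scal
      rw [MvPolynomial.coe_eval₂Hom, MvPolynomial.eval₂_X, MvPolynomial.coe_eval₂Hom,
        MvPolynomial.eval₂_X]
  exact RingHom.congr_fun h2 Q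

lemma per_map (φ : A →+* B) (ω : ι → ℕ) (M : Matrix ι ι A) (Ψ : PowerSeries (LP ι A))
    (w : ι →₀ ℕ) :
    per ω (M.map φ) (PowerSeries.map (LPm φ) Ψ) w = PowerSeries.map φ (per ω M Ψ w) := by
  unfold per
  rw [← cx_map, map_mul]
  congr 2
  have h := chart_map φ ω 0 0 M (MvPolynomial.monomial (w - one ι) 1)
  have h1 : MvPolynomial.map (Polynomial.mapRingHom φ) (MvPolynomial.monomial (w - one ι) 1) =
      MvPolynomial.monomial (w - one ι) (1 : Polynomial B) := by
    rw [MvPolynomial.map_monomial, RingHom.map_one]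
  rw [h1, φ.map_zero] at h
  exact h

end map

end Pool.Agent.Q267.AP
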