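import Pool.Agent.Q267.AP.Place
import Pool.Agent.Q177.ST.Disc

/-!
# Good ordinary reduction of the members of a family at a place
-/

set_option autoImplicit false

open Finset

namespace Pool.Agent.Q267.AP

open Pool.Agent.Q267.ST
open NumberField IsDedekindDomain
open Pool.Agent.Q267.OD (charP_res finite_mem red)
open Pool.Agent.Q267.DC (hm hm_map det_hm_map card_res)

section

variable {K : Type} [Field K] [NumberField K] {n e : ℕ}

/-- Good ordinary reduction of `y ^ m = F` at `v` (for `m = 1`: of the hypersurface `F = 0`). -/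
def Good (m e : ℕ) (v : HeightOneSpectrum (𝓞 K)) (F : MvPolynomial (Fin (n + 1)) (𝓞 K)) : Prop :=
  (m : 𝓞 K) ∉ v.asIdeal ∧ Hom.QSmooth (red v F) ∧
    (hm ((Ideal.absNorm v.asIdeal - 1) / m) (Ideal.absNorm v.asIdeal) (wexp n e)
      (red v F)).det ≠ 0

/-- The discriminant of a family. -/
theorem discr (D : ℕ) (f : MvPolynomial (Fin (n + 1)) (Polynomial (𝓞 K)))
    (hf : ∀ u ∈ f.support, ∑ i, u i = D)
    (hsm : ∃ t : K, Hom.QSmooth (MvPolynomial.map (Polynomial.eval₂RingHom (algebraMap (𝓞 K) K) t)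
      f)) :
    ∃ Δ : Polynomial (𝓞 K), Δ ≠ 0 ∧ ∀ (k : Type) [Field k] (ρ : Polynomial (𝓞 K) →+* k),
      ρ Δ ≠ 0 → Hom.QSmooth (MvPolynomial.map ρ f) := by
  classical
  obtain ⟨t, ht⟩ := hsm
  have hmem : ∀ (R : Type) [CommRing R] (G : MvPolynomial (Fin (n + 1)) R)
      (τ : (∅ : Finset (Fin (n + 1) →₀ ℕ)) → R), Hom.member G ∅ τ = G := by
    intro R _ G τ
    unfold Hom.member
    rw [Finset.univ_eq_empty, sum_empty, add_zero]
  have hw : ∀ u : Fin (n + 1) →₀ ℕ, Hom.wdeg (fun _ => 1) u = ∑ i, u i := by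
    intro u
    unfold Hom.wdeg
    simp only [one_mul]
  obtain ⟨Δ, hΔ, h⟩ := Pool.Agent.Q177.ST.disc (Polynomial (𝓞 K)) (AlgebraicClosure K)
    ((algebraMap K (AlgebraicClosure K)).comp (Polynomial.eval₂RingHom (algebraMap (𝓞 K) K) t))
    (n + 1) (fun _ => 1) D (fun _ => one_ne_zero) f (fun u hu => by rw [hw]; exact hf u hu) ∅
    (by simp) (fun _ => 0) (by
      rw [hmem, ← MvPolynomial.map_map]
      intro ξ h2 h3
      refine ht ξ ?_ fun i => ?_
      · rw [MvPolynomial.aeval_def, ← MvPolynomial.eval_map]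
        exact h2
      · rw [MvPolynomial.aeval_def, ← MvPolynomial.eval_map, ← MvPolynomial.pderiv_map]
        exact h3 i)
  have hΔC : Δ = MvPolynomial.C (MvPolynomial.coeff 0 Δ) := by
    ext1 u
    rw [MvPolynomial.coeff_C, if_pos (Subsingleton.elim _ _)]
    rw [Subsingleton.elim u 0]
  refine ⟨MvPolynomial.coeff 0 Δ, ?_, ?_⟩
  · intro h0
    apply hΔ
    rw [hΔC, h0, map_zero]
  · intro k _ ρ hρ
    have h1 := h k ρ (fun _ => 0) (by
      rw [hΔC, MvPolynomial.eval₂_C]
      exact hρ)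
    rwa [hmem] at h1

open Classical in
/-- **Few members are not ordinary modulo a place.** -/
theorem few (hNorm : S_Norm) (hConst : S_Const) (hPerD : S_PerD) (hStar : S_Star)
    (hCharts : S_Charts) (hSpread : S_Spread) (m : ℕ) (hm12 : m = 1 ∨ m = 2)
    (f : MvPolynomial (Fin (n + 1)) (Polynomial (𝓞 K))) (hf : ∀ u ∈ f.support, ∑ i, u i = m * e)
    (l : Fin e → Fin (n + 1) → AlgebraicClosure K)
    (hl : ∀ σ : Fin (n + 1) → Fin e, Function.Injective σ →
      (Matrix.of fun i j => l (σ i) j).det ≠ 0) (harr : ArrAt m f l)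
    (hsm : ∃ t : K, Hom.QSmooth (MvPolynomial.map (Polynomial.eval₂RingHom (algebraMap (𝓞 K) K) t)
      f)) (ε : ℝ) (hε : 0 < ε) :
    {v : HeightOneSpectrum (𝓞 K) | (Ideal.absNorm v.asIdeal).Prime ∧
      ¬ (((range (Ideal.absNorm v.asIdeal)).filter fun t : ℕ => ¬ Good m e v
        (MvPolynomial.map (Polynomial.evalRingHom (t : 𝓞 K)) f)).card : ℝ) ≤
          ε * Ideal.absNorm v.asIdeal}.Finite := by
  obtain ⟨Δ, hΔ, hΔs⟩ := discr (m * e) f hf hsm
  have h1 := place hNorm hConst hPerD hStar hCharts hSpread m hm12 f hf l hl harr (ε / 2)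
    (by positivity)
  have hm0 : (m : 𝓞 K) ≠ 0 := by
    rw [Nat.cast_ne_zero]
    omega
  refine (((h1.union (finite_mem (K := K) (m : 𝓞 K) hm0)).union
    (finite_mem (K := K) Δ.leadingCoeff (Polynomial.leadingCoeff_ne_zero.mpr hΔ))).union
    (Pool.Agent.W352.ChAbs.finite_le (K := K) ⌈2 * (Δ.natDegree : ℝ) / ε⌉₊)).subset ?_
  rintro v ⟨hv, hv'⟩
  by_contra hno
  simp only [Set.mem_union, Set.mem_ofPred_eq, not_or, not_and, not_not, not_le] at hno
  obtain ⟨⟨⟨hplace, hvm⟩, hvΔ⟩, hvN⟩ := hno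
  apply hv'
  have hpl := hplace hv
  set p := Ideal.absNorm v.asIdeal with hp
  have hchar : CharP v.asIdeal.ResidueField p := charP_res v hv
  have hfact : Fact p.Prime := ⟨hv⟩
  set κ := v.asIdeal.ResidueField with hκ
  set ρ : 𝓞 K →+* κ := algebraMap (𝓞 K) κ with hρ
  obtain ⟨e', he⟩ : ∃ e', e' * m + 1 = p := by
    rcases hm12 with h | h
    · exact ⟨p - 1, by rw [h]; have := hv.one_lt; omega⟩
    · have h2 : p ≠ 2 := by
        intro h3
        apply hvm
        have h4 := Ideal.absNorm_mem v.asIdeal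
        rw [← hp, h3] at h4
        rw [h]
        exact_mod_cast h4
      have h3 := hv.eq_two_or_odd
      exact ⟨(p - 1) / 2, by rw [h]; omega⟩
  have hee : (p - 1) / m = e' := by
    rw [← he, Nat.add_sub_cancel]
    exact Nat.mul_div_cancel _ (by omega)
  set fκ := MvPolynomial.map (Polynomial.mapRingHom ρ) f with hfκ
  have hred : ∀ t : ℕ, red v (MvPolynomial.map (Polynomial.evalRingHom (t : 𝓞 K)) f) =
      MvPolynomial.map (Polynomial.evalRingHom (t : κ)) fκ := by
    intro t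
    unfold red
    rw [hfκ, MvPolynomial.map_map, MvPolynomial.map_map]
    congr 2
    ext a
    · simp only [RingHom.coe_comp, Function.comp_apply, Polynomial.coe_evalRingHom,
        Polynomial.coe_mapRingHom, Polynomial.eval_C, Polynomial.map_C]
      rfl
    · simp
  set Bad := (range p).filter fun t : ℕ => ¬ Good m e v
    (MvPolynomial.map (Polynomial.evalRingHom (t : 𝓞 K)) f) with hBad
  set Z := Bad.image fun t : ℕ => (t : κ) with hZ
  have hZc : Z.card = Bad.card := by
    rw [hZ, card_image_of_injOn]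
    intro a ha b hb hab
    exact CharP.natCast_injOn_Iio κ p
      (Set.mem_Iio.mpr (mem_range.mp (mem_filter.mp (mem_coe.mp ha)).1))
      (Set.mem_Iio.mpr (mem_range.mp (mem_filter.mp (mem_coe.mp hb)).1)) hab
  have hΔk : Δ.map ρ ≠ 0 := by
    intro h0
    have h2 := congrArg (fun q => Polynomial.coeff q Δ.natDegree) h0
    simp only [Polynomial.coeff_map, Polynomial.coeff_zero] at h2
    rw [hρ, Ideal.algebraMap_residueField_eq_zero] at h2
    exact hvΔ h2
  have hsub : Z ⊆ (Δ.map ρ).roots.toFinset ∪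
      Z.filter fun t => (hm e' p (wexp n e) fκ).det.eval t = 0 := by
    intro z hz
    rw [mem_union]
    by_contra hno
    rw [not_or] at hno
    obtain ⟨h2, h3⟩ := hno
    obtain ⟨t, ht, rfl⟩ := mem_image.mp hz
    rw [Multiset.mem_toFinset, Polynomial.mem_roots hΔk] at h2
    have h4 : (hm e' p (wexp n e) fκ).det.eval (t : κ) ≠ 0 := fun h5 =>
      h3 (mem_filter.mpr ⟨hz, h5⟩)
    refine (mem_filter.mp ht).2 ⟨hvm, ?_, ?_⟩
    · rw [hred, hfκ, MvPolynomial.map_map]
      refine hΔs κ _ ?_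
      rw [RingHom.comp_apply, Polynomial.coe_mapRingHom, Polynomial.coe_evalRingHom]
      exact h2
    · rw [hred, ← hp, hee, det_ev]
      exact h4
  have h2 : ((Z.filter fun t => (hm e' p (wexp n e) fκ).det.eval t = 0).card : ℝ) ≤
      ε / 2 * p := hpl e' he _ fun t ht => (mem_filter.mp ht).2
  have h3 : ((Δ.map ρ).roots.toFinset.card : ℝ) ≤ Δ.natDegree := by
    exact_mod_cast (Multiset.toFinset_card_le _).trans ((Polynomial.card_roots' _).trans
      Polynomial.natDegree_map_le)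
  have h4 : (Δ.natDegree : ℝ) ≤ ε / 2 * p := by
    have h5 : 2 * (Δ.natDegree : ℝ) / ε ≤ p :=
      (Nat.le_ceil _).trans (by exact_mod_cast hvN.le)
    rw [div_le_iff₀ hε] at h5
    linarith
  have h5 : (Z.card : ℝ) ≤ ((Δ.map ρ).roots.toFinset.card : ℝ) +
      ((Z.filter fun t => (hm e' p (wexp n e) fκ).det.eval t = 0).card : ℝ) := by
    exact_mod_cast (card_le_card hsub).trans (card_union_le _ _)
  rw [hZc] at h5
  linarith

end

end Pool.Agent.Q267.AP
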