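import Pool.Agent.Q267.AP.Scale

/-!
# The larger sieve for families of conditions at places
-/

set_option autoImplicit false

open Finset

namespace Pool.Agent.Q267.AP

open NumberField IsDedekindDomain Filter Topology
open Pool.Agent.Q267.OD (allP)

/-- The dyadic scales between `Q₀` and `Q₁`. -/
def scales (Q₀ Q₁ : ℕ) : Finset ℕ := (range (Q₁ + 1)).filter fun j => Q₀ ≤ 2 ^ j ∧ 2 ^ j ≤ Q₁

lemma scales_card (Q₀ Q₁ : ℕ) (h0 : 1 ≤ Q₀) (h1 : Q₀ ≤ Q₁) :
    (Real.log Q₁ - Real.log Q₀) / Real.log 2 - 1 ≤ (scales Q₀ Q₁).card := by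
  have hlog : 0 < Real.log 2 := Real.log_pos (by norm_num)
  have hsub : Finset.Ico (Nat.clog 2 Q₀) (Nat.log 2 Q₁ + 1) ⊆ scales Q₀ Q₁ := by
    intro j hj
    rw [mem_Ico] at hj
    unfold scales
    rw [mem_filter, mem_range]
    have h2 : Q₀ ≤ 2 ^ j := (Nat.clog_le_iff_le_pow (b := 2) (by norm_num)).mp hj.1
    have h3 : 2 ^ j ≤ Q₁ := Nat.pow_le_of_le_log (by omega) (by omega)
    refine ⟨?_, h2, h3⟩
    have : j < 2 ^ j := Nat.lt_two_pow_self
    omega
  have h2 := card_le_card hsub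
  rw [Nat.card_Ico] at h2
  have h3 : (Nat.clog 2 Q₀ : ℝ) ≤ Real.log Q₀ / Real.log 2 + 1 := by
    rcases Nat.eq_or_lt_of_le h0 with h | h
    · rw [← h]
      simp
    · have h4 : 0 < Nat.clog 2 Q₀ := Nat.clog_pos (by norm_num) h
      have h5 : 2 ^ (Nat.clog 2 Q₀ - 1) < Q₀ :=
        (Nat.lt_clog_iff_pow_lt (b := 2) (by norm_num)).mp (by omega)
      have h6 : ((Nat.clog 2 Q₀ - 1 : ℕ) : ℝ) * Real.log 2 ≤ Real.log Q₀ := by
        rw [← Real.log_pow]
        exact Real.log_le_log (by positivity) (by exact_mod_cast h5.le)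
      rw [Nat.cast_sub h4, Nat.cast_one] at h6
      rw [← sub_le_iff_le_add, le_div_iff₀ hlog]
      exact h6
  have h4 : Real.log Q₁ / Real.log 2 ≤ (Nat.log 2 Q₁ : ℝ) + 1 := by
    rw [div_le_iff₀ hlog]
    have h5 : Q₁ < 2 ^ (Nat.log 2 Q₁ + 1) := Nat.lt_pow_succ_log_self (by norm_num) Q₁
    have h6 : Real.log Q₁ ≤ Real.log ((2 : ℝ) ^ (Nat.log 2 Q₁ + 1)) :=
      Real.log_le_log (by
        have : 0 < Q₁ := by omega
        exact_mod_cast this) (by exact_mod_cast h5.le)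
    rw [Real.log_pow] at h6
    push_cast at h6
    exact h6
  have h5 : ((Nat.log 2 Q₁ : ℝ) + 1) - Nat.clog 2 Q₀ ≤ (scales Q₀ Q₁).card := by
    have h6 : Nat.log 2 Q₁ + 1 ≤ (scales Q₀ Q₁).card + Nat.clog 2 Q₀ := by omega
    have h7 : ((Nat.log 2 Q₁ + 1 : ℕ) : ℝ) ≤ (((scales Q₀ Q₁).card + Nat.clog 2 Q₀ : ℕ) : ℝ) := by
      exact_mod_cast h6
    push_cast at h7
    linarith
  rw [sub_div]
  linarith

/-- The numerical end of the proof. -/
lemma numer {x L κ δ ε c q d b : ℝ} (hx : 0 ≤ x) (hL : 1 ≤ L) (hκ : 0 < κ) (hδ : 0 < δ)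
    (hc : 0 < c) (hd : 0 < d) (hq : 0 ≤ q) (hε : ε = κ ^ 2 * δ ^ 2 / (64 * (c * d)))
    (hb0 : κ * δ / 2 * L ≤ b)
    (h : (x * b) ^ 2 ≤ ε * (c * (1 + L)) * (d * (x * (2 * q) + x ^ 2 * L))) : x ≤ 2 * q := by
  by_contra hno
  push Not at hno
  have hx0 : 0 < x := by linarith
  have hcd : 0 < c * d := mul_pos hc hd
  have h1 : (x * (κ * δ / 2 * L)) ^ 2 ≤ (x * b) ^ 2 := by
    have : 0 ≤ κ * δ / 2 * L := by positivity
    gcongr
  have h2 : ε * (c * (1 + L)) * (d * (x * (2 * q) + x ^ 2 * L)) ≤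
      ε * (c * (2 * L)) * (d * (x * x * (2 * L))) := by
    have hε0 : 0 < ε := by rw [hε]; positivity
    have h3 : x * (2 * q) + x ^ 2 * L ≤ x * x * (2 * L) := by nlinarith
    have h4 : 1 + L ≤ 2 * L := by linarith
    have h5 : 0 ≤ x * (2 * q) + x ^ 2 * L := by positivity
    gcongr
  have h3 : ε * (c * (2 * L)) * (d * (x * x * (2 * L))) =
      κ ^ 2 * δ ^ 2 / 16 * (x * L) ^ 2 := by
    rw [hε]
    field_simp
    ring
  have h4 : (x * (κ * δ / 2 * L)) ^ 2 = κ ^ 2 * δ ^ 2 / 4 * (x * L) ^ 2 := by ring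
  have h5 : 0 < κ ^ 2 * δ ^ 2 * (x * L) ^ 2 := by positivity
  nlinarith

open Classical in
/-- **The larger sieve.** -/
theorem ls_main (hLarger : S_Larger) (hScale : S_Scale) (hMert : S_Mert) (K : Type) [Field K]
    [NumberField K] (B : ℕ → HeightOneSpectrum (𝓞 K) → Prop)
    (hper : ∀ t (v : HeightOneSpectrum (𝓞 K)), (Ideal.absNorm v.asIdeal).Prime →
      (B t v ↔ B (t % Ideal.absNorm v.asIdeal) v))
    (hfew : ∀ ε : ℝ, 0 < ε → {v : HeightOneSpectrum (𝓞 K) | (Ideal.absNorm v.asIdeal).Prime ∧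
      ¬ (((range (Ideal.absNorm v.asIdeal)).filter fun t : ℕ => B t v).card : ℝ) ≤
        ε * Ideal.absNorm v.asIdeal}.Finite) (η δ : ℝ) (hη : 0 < η) (hδ : 0 < δ) :
    ∃ C : ℝ, ∀ X Q₀ Q₁ : ℕ, 1 ≤ Q₀ → (X : ℝ) ^ δ * Q₀ ≤ Q₁ → ∀ E : Finset ℕ,
      (∀ t ∈ E, 1 ≤ t ∧ t ≤ X ∧ η * (scales Q₀ Q₁).card ≤
        ((scales Q₀ Q₁).filter fun j =>
          η * allP K (2 ^ j) < ((pls K (2 ^ j)).filter fun v => B t v).card).card) →
      (E.card : ℝ) ≤ C * Q₁ := by
  obtain ⟨κ, C₁, hκ, hsc⟩ := hScale K η hη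
  obtain ⟨CM, hCM⟩ := hMert K
  have hlog : 0 < Real.log 2 := Real.log_pos (by norm_num)
  have hlog1 : Real.log 2 ≤ 1 := by
    have := Real.log_two_lt_d9
    linarith
  obtain ⟨c, hc⟩ : ∃ c : ℝ, c = max CM 1 := ⟨_, rfl⟩
  have hc0 : 0 < c := by rw [hc]; exact lt_of_lt_of_le one_pos (le_max_right _ _)
  have hcM : CM ≤ c := by rw [hc]; exact le_max_left _ _
  obtain ⟨d, hd⟩ : ∃ d : ℕ, d = Module.finrank ℚ K := ⟨_, rfl⟩
  have hd0 : (0 : ℝ) < d := by
    rw [hd]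
    exact_mod_cast Module.finrank_pos
  obtain ⟨ε, hε⟩ : ∃ ε : ℝ, ε = κ ^ 2 * δ ^ 2 / (64 * (c * d)) := ⟨_, rfl⟩
  have hε0 : 0 < ε := by rw [hε]; positivity
  set a : HeightOneSpectrum (𝓞 K) → ℝ := fun v =>
    Real.log (Ideal.absNorm v.asIdeal) / Ideal.absNorm v.asIdeal with ha
  have ha0 : ∀ v, 0 ≤ a v := fun v => by
    have : 0 ≤ Real.log (Ideal.absNorm v.asIdeal) := Real.log_natCast_nonneg _
    positivity
  have hF := hfew ε hε0
  obtain ⟨CF, hCF⟩ : ∃ CF : ℝ, CF = ∑ v ∈ hF.toFinset, a v := ⟨_, rfl⟩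
  obtain ⟨C₂, hC₂⟩ : ∃ C₂ : ℝ, C₂ = C₁ + CM + CF + κ := ⟨_, rfl⟩
  -- the threshold for `X`
  obtain ⟨L₀, hL₀⟩ : ∃ L₀ : ℝ, L₀ = max 1 (2 * C₂ / (κ * δ)) := ⟨_, rfl⟩
  refine ⟨max 2 (Real.exp L₀), ?_⟩
  intro X Q₀ Q₁ hQ₀ hQ E hE
  have hEX : (E.card : ℝ) ≤ X := by
    have h1 : E ⊆ Icc 1 X := fun t ht => mem_Icc.mpr ⟨(hE t ht).1, (hE t ht).2.1⟩
    have h2 := card_le_card h1
    rw [Nat.card_Icc, Nat.add_sub_cancel] at h2
    exact_mod_cast h2
  have hQ₀R : (1 : ℝ) ≤ Q₀ := by exact_mod_cast hQ₀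
  rcases Nat.eq_zero_or_pos X with hX0 | hX0
  · rw [hX0, Nat.cast_zero] at hEX
    exact hEX.trans (by positivity)
  have hXR : (1 : ℝ) ≤ X := by exact_mod_cast hX0
  have hXδ : 1 ≤ (X : ℝ) ^ δ := Real.one_le_rpow hXR hδ.le
  have hQ₁R : (Q₀ : ℝ) ≤ Q₁ := le_trans (by nlinarith) hQ
  have hQ₁1 : (1 : ℝ) ≤ Q₁ := hQ₀R.trans hQ₁R
  have hQ01 : Q₀ ≤ Q₁ := by exact_mod_cast hQ₁R
  -- small `X`
  by_cases hXL : Real.log X ≤ L₀
  · have h1 : (X : ℝ) ≤ Real.exp L₀ := (Real.log_le_iff_le_exp (by linarith)).mp hXL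
    calc (E.card : ℝ) ≤ Real.exp L₀ := hEX.trans h1
      _ ≤ Real.exp L₀ * Q₁ := le_mul_of_one_le_right (Real.exp_pos _).le hQ₁1
      _ ≤ _ := mul_le_mul_of_nonneg_right (le_max_right _ _) (by linarith)
  push Not at hXL
  have hL1 : 1 ≤ Real.log X := by
    have : (1 : ℝ) ≤ L₀ := by rw [hL₀]; exact le_max_left _ _
    linarith
  have hL2 : 2 * C₂ / (κ * δ) ≤ Real.log X := by
    have : 2 * C₂ / (κ * δ) ≤ L₀ := by rw [hL₀]; exact le_max_right _ _
    linarith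
  refine le_trans ?_ (mul_le_mul_of_nonneg_right (le_max_left _ _) (by linarith))
  -- large `Q₁`
  by_cases hQX : (X : ℝ) ≤ Q₁
  · linarith
  push Not at hQX
  -- the number of scales
  have hJ : δ * Real.log X - 1 ≤ (scales Q₀ Q₁).card := by
    refine le_trans ?_ (scales_card Q₀ Q₁ hQ₀ hQ01)
    have h1 : δ * Real.log X + Real.log Q₀ ≤ Real.log Q₁ := by
      rw [← Real.log_rpow (by linarith), ← Real.log_mul (by positivity) (by positivity)]
      exact Real.log_le_log (by positivity) hQ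
    have h2 : δ * Real.log X ≤ (Real.log Q₁ - Real.log Q₀) / Real.log 2 := by
      rw [le_div_iff₀ hlog]
      have h3 : 0 ≤ δ * Real.log X := by positivity
      nlinarith
    linarith
  -- the places
  set W := (pls K Q₁).filter fun v => (Ideal.absNorm v.asIdeal).Prime ∧ v ∉ hF.toFinset with hW
  have hWm : ∀ v, v ∈ W ↔ Ideal.absNorm v.asIdeal ≤ Q₁ ∧ (Ideal.absNorm v.asIdeal).Prime ∧
      v ∉ hF.toFinset := by
    intro v
    rw [hW, mem_filter, mem_pls]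
  have hsumW : ∑ v ∈ W, a v ≤ c * (1 + Real.log X) := by
    have h1 : ∑ v ∈ W, a v ≤ ∑ v ∈ pls K Q₁, a v :=
      sum_le_sum_of_subset_of_nonneg (filter_subset _ _) fun v _ _ => ha0 v
    have h2 := (hCM Q₁ (by omega)).1
    have h3 : Real.log Q₁ ≤ Real.log X := Real.log_le_log (by linarith) hQX.le
    have h4 : 0 ≤ Real.log Q₁ := Real.log_natCast_nonneg _
    calc ∑ v ∈ W, a v ≤ CM * (1 + Real.log Q₁) := h1.trans h2
      _ ≤ c * (1 + Real.log Q₁) := mul_le_mul_of_nonneg_right hcM (by linarith)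
      _ ≤ _ := mul_le_mul_of_nonneg_left (by linarith) hc0.le
  -- the bad places of one member
  have hone : ∀ t ∈ E, κ * δ / 2 * Real.log X ≤ ∑ v ∈ W.filter fun v => B t v, a v := by
    intro t ht
    have h1 := hsc (fun v => B t v) Q₀ Q₁ (by
      refine (hE t ht).2.2.trans (le_of_eq ?_)
      congr 2
      unfold scales
      rw [filter_filter]
      refine filter_congr fun j _ => ?_
      exact and_assoc)
    have h2 : ∑ v ∈ (pls K Q₁).filter fun v => B t v, a v ≤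
        ∑ v ∈ W.filter fun v => B t v, a v +
          (∑ v ∈ (pls K Q₁).filter fun v => ¬ (Ideal.absNorm v.asIdeal).Prime, a v +
            ∑ v ∈ hF.toFinset, a v) := by
      have h3 : (pls K Q₁).filter (fun v => B t v) ⊆ (W.filter fun v => B t v) ∪
          (((pls K Q₁).filter fun v => ¬ (Ideal.absNorm v.asIdeal).Prime) ∪ hF.toFinset) := by
        intro v hv
        rw [mem_filter] at hv
        by_cases h4 : (Ideal.absNorm v.asIdeal).Prime
        · by_cases h5 : v ∈ hF.toFinset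
          · exact mem_union_right _ (mem_union_right _ h5)
          · exact mem_union_left _ (mem_filter.mpr ⟨(hWm v).mpr ⟨mem_pls.mp hv.1, h4, h5⟩, hv.2⟩)
        · exact mem_union_right _ (mem_union_left _ (mem_filter.mpr ⟨hv.1, h4⟩))
      have h4 : ∀ s t : Finset (HeightOneSpectrum (𝓞 K)),
          ∑ v ∈ s ∪ t, a v ≤ ∑ v ∈ s, a v + ∑ v ∈ t, a v := by
        intro s t
        rw [← sum_union_inter]
        exact le_add_of_nonneg_right (sum_nonneg fun v _ => ha0 v)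
      refine (sum_le_sum_of_subset_of_nonneg h3 fun v _ _ => ha0 v).trans ?_
      exact (h4 _ _).trans (add_le_add_right (h4 _ _) _)
    have h3 := (hCM Q₁ (by omega)).2
    have h4 : κ * (scales Q₀ Q₁).card - C₁ ≤
        ∑ v ∈ (pls K Q₁).filter fun v => B t v, a v := h1
    have h5 : κ * (δ * Real.log X - 1) ≤ κ * (scales Q₀ Q₁).card :=
      mul_le_mul_of_nonneg_left hJ hκ.le
    have h6 : 2 * C₂ ≤ κ * δ * Real.log X := by
      rw [div_le_iff₀ (by positivity)] at hL2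
      linarith
    rw [← hCF] at h2
    have h7 : ∑ v ∈ (pls K Q₁).filter (fun v => ¬ (Ideal.absNorm v.asIdeal).Prime), a v ≤ CM := h3
    nlinarith
  -- the larger sieve
  have hsieve := hLarger (HeightOneSpectrum (𝓞 K)) X Q₁ d E W (fun v => Ideal.absNorm v.asIdeal)
    (fun v t => B t v) ε hε0 (fun t ht => ⟨(hE t ht).1, (hE t ht).2.1⟩)
    (fun v hv => ⟨((hWm v).mp hv).2.1, ((hWm v).mp hv).1⟩) (by
      intro p
      by_cases hp : p.Prime
      · have h1 := Pool.Agent.W352.ChAbs.over_le (K := K) p hp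
        rw [hd]
        refine le_trans ?_ h1.2
        rw [← Set.ncard_coe_finset]
        refine Set.ncard_le_ncard ?_ h1.1
        intro v hv
        have h2 := (mem_filter.mp (mem_coe.mp hv)).2
        rw [Set.mem_ofPred_eq, ← h2]
        exact Ideal.absNorm_mem _
      · have h2 : W.filter (fun v => Ideal.absNorm v.asIdeal = p) = ∅ := by
          rw [filter_eq_empty_iff]
          intro v hv h
          exact hp (h ▸ ((hWm v).mp hv).2.1)
        rw [h2, card_empty]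
        exact Nat.zero_le _)
    (fun v hv t => hper t v ((hWm v).mp hv).2.1)
    (fun v hv => by
      by_contra hno
      apply ((hWm v).mp hv).2.2
      rw [Set.Finite.mem_toFinset]
      exact ⟨((hWm v).mp hv).2.1, fun h => hno h⟩)
  have hlow : (E.card : ℝ) * (κ * δ / 2 * Real.log X) ≤
      ∑ v ∈ W, a v * (E.filter fun t => B t v).card := by
    have h1 : ∑ v ∈ W, a v * ((E.filter fun t => B t v).card : ℝ) =
        ∑ t ∈ E, ∑ v ∈ W.filter fun v => B t v, a v := by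
      have h2 : ∀ v ∈ W, a v * ((E.filter fun t => B t v).card : ℝ) =
          ∑ t ∈ E, if B t v then a v else 0 := by
        intro v _
        rw [← sum_filter, sum_const, nsmul_eq_mul, mul_comm]
      rw [sum_congr rfl h2, sum_comm]
      exact sum_congr rfl fun t _ => (sum_filter _ _).symm
    rw [h1, ← nsmul_eq_mul]
    exact card_nsmul_le_sum _ _ _ hone
  have hlog4 : Real.log 4 ≤ 2 := by
    have h1 : (4 : ℝ) = 2 ^ 2 := by norm_num
    rw [h1, Real.log_pow]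
    push_cast
    linarith
  have hb : κ * δ / 2 * Real.log X ≤ κ * δ / 2 * Real.log X := le_rfl
  refine numer (Nat.cast_nonneg _) hL1 hκ hδ hc0 hd0 (by linarith) hε hb ?_
  have h0 : 0 ≤ (E.card : ℝ) * (κ * δ / 2 * Real.log X) := by positivity
  have h1 := (pow_le_pow_left₀ h0 hlow 2).trans hsieve
  refine h1.trans ?_
  have h2 : 0 ≤ Real.log X := by linarith
  have h3 : (d : ℝ) * (E.card * (Real.log 4 * Q₁) + (E.card : ℝ) ^ 2 * Real.log X) ≤
      d * (E.card * (2 * Q₁) + (E.card : ℝ) ^ 2 * Real.log X) := by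
    gcongr
  have h4 : 0 ≤ (d : ℝ) * (E.card * (Real.log 4 * Q₁) + (E.card : ℝ) ^ 2 * Real.log X) := by
    have : 0 ≤ Real.log 4 := Real.log_nonneg (by norm_num)
    positivity
  have h5 : 0 ≤ c * (1 + Real.log X) := by positivity
  calc ε * (∑ v ∈ W, a v) * (d * (E.card * (Real.log 4 * Q₁) + (E.card : ℝ) ^ 2 * Real.log X)) ≤
      ε * (c * (1 + Real.log X)) *
        (d * (E.card * (Real.log 4 * Q₁) + (E.card : ℝ) ^ 2 * Real.log X)) :=
        mul_le_mul_of_nonneg_right (mul_le_mul_of_nonneg_left hsumW hε0.le) h4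
    _ ≤ _ := mul_le_mul_of_nonneg_left h3 (mul_nonneg hε0.le h5)

end Pool.Agent.Q267.AP
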