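import Pool.Agent.Q267.AP.Stm
import Pool.Agent.Q267.ST.Series
import Pool.Agent.Q267.ST.All

/-!
# The periods are D-finite
-/

set_option autoImplicit false

open Finset

namespace Pool.Agent.Q267.AP

open Pool.Agent.Q267.ST

theorem perD : S_PerD := by
  intro ι A _ _ _ _ ω c' ν M ψ w hode
  have hd : ∀ u, DFin (cx u ψ) := fun u => Pool.Agent.Q121.ST.dfOfODE A _ (hode u)
  unfold per chart
  rw [RingHom.comp_apply, RingHom.comp_apply, mul_comm,
    Pool.Agent.Q299.ST.cxMul ι A _ _ _]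
  refine dfin_sum Pool.Agent.Q121.ST.dfAdd Pool.Agent.Q121.ST.dfPoly _ _ fun v _ => ?_
  refine Pool.Agent.Q121.ST.dfMul A _ _ ?_ (Pool.Agent.Q121.ST.dfPoly A _)
  rw [mul_assoc, cx_cst_mul, cx_xm_mul]
  refine Pool.Agent.Q121.ST.dfMul A _ _ ?_ (hd _)
  rw [← Polynomial.coe_C]
  exact Pool.Agent.Q121.ST.dfPoly A _

end Pool.Agent.Q267.AP
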