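import Pool.Agent.Q267.AP.Good
import Pool.Agent.Q267.AP.PerD
import Pool.Agent.Q267.AP.LS
import Pool.Agent.Q267.DC.Sup2
import Pool.Agent.Q102.AP.Cart
import Pool.Agent.Q102.AP.Norm
import Pool.Agent.Q102.AP.Charts
import Pool.Agent.Q102.AP.Spread
import Pool.Agent.Q102.AP.Larger
import Pool.Agent.Q102.AP.Mert
import Pool.Agent.Q174.AP.Star
import Pool.Agent.Q285.AP.Const

/-!
# Ordinary places for families through a hyperplane arrangement
-/

set_option autoImplicit false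

open Finset

namespace Pool.Agent.Q267.AP

open Pool.Agent.Q267.ST
open NumberField IsDedekindDomain Filter Topology
open Pool.Agent.W401.Cheb Pool.Agent.W528.Ord
open Pool.Agent.Q267.OD (charP_res finite_mem red allP)
open Pool.Agent.Q267.DC (hm abs_sup)

section

variable {K : Type} [Field K] [NumberField K] {n e : ℕ}

/-- The member of the family at the integer `t`. -/
noncomputable def mem (f : MvPolynomial (Fin (n + 1)) (Polynomial (𝓞 K))) (t : ℕ) :
    MvPolynomial (Fin (n + 1)) (𝓞 K) :=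
  MvPolynomial.map (Polynomial.evalRingHom (t : 𝓞 K)) f

omit [NumberField K] in
lemma red_mem (f : MvPolynomial (Fin (n + 1)) (Polynomial (𝓞 K)))
    (v : HeightOneSpectrum (𝓞 K)) (t : ℕ) :
    red v (mem f t) = MvPolynomial.map (Polynomial.eval₂RingHom
      (algebraMap (𝓞 K) v.asIdeal.ResidueField) (t : v.asIdeal.ResidueField)) f := by
  unfold red mem
  rw [MvPolynomial.map_map]
  congr 2
  ext a
  · simp only [RingHom.coe_comp, Function.comp_apply, Polynomial.coe_evalRingHom,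
      Polynomial.eval_C, Polynomial.coe_eval₂RingHom, Polynomial.eval₂_C]
  · simp

lemma good_mod (m : ℕ) (f : MvPolynomial (Fin (n + 1)) (Polynomial (𝓞 K)))
    (v : HeightOneSpectrum (𝓞 K)) (hv : (Ideal.absNorm v.asIdeal).Prime) (t : ℕ) :
    Good m e v (mem f t) ↔ Good m e v (mem f (t % Ideal.absNorm v.asIdeal)) := by
  have := charP_res v hv
  have h1 : (t : v.asIdeal.ResidueField) =
      ((t % Ideal.absNorm v.asIdeal : ℕ) : v.asIdeal.ResidueField) :=
    (CharP.natCast_eq_natCast' _ (Ideal.absNorm v.asIdeal) (Nat.mod_modEq _ _)).symm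
  unfold Good
  rw [red_mem, red_mem, ← h1]

open Classical in
/-- Few members are not ordinary modulo a place. -/
theorem few' (m : ℕ) (hm12 : m = 1 ∨ m = 2)
    (f : MvPolynomial (Fin (n + 1)) (Polynomial (𝓞 K))) (hf : ∀ u ∈ f.support, ∑ i, u i = m * e)
    (l : Fin e → Fin (n + 1) → AlgebraicClosure K)
    (hl : ∀ σ : Fin (n + 1) → Fin e, Function.Injective σ →
      (Matrix.of fun i j => l (σ i) j).det ≠ 0) (harr : ArrAt m f l)
    (hsm : ∃ t : K, Hom.QSmooth (MvPolynomial.map (Polynomial.eval₂RingHom (algebraMap (𝓞 K) K) t)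
      f)) (ε : ℝ) (hε : 0 < ε) :
    {v : HeightOneSpectrum (𝓞 K) | (Ideal.absNorm v.asIdeal).Prime ∧
      ¬ (((range (Ideal.absNorm v.asIdeal)).filter fun t : ℕ => ¬ Good m e v (mem f t)).card : ℝ) ≤
          ε * Ideal.absNorm v.asIdeal}.Finite :=
  few Pool.Agent.Q102.AP.norm Pool.Agent.Q285.AP.const perD
    (Pool.Agent.Q174.AP.star Pool.Agent.Q102.AP.cart frobG Pool.Agent.Q299.ST.cxMul)
    Pool.Agent.Q102.AP.charts Pool.Agent.Q102.AP.spread m hm12 f hf l hl harr hsm ε hε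

open Classical in
/-- **All scales.** -/
theorem allscales (m : ℕ) (f : MvPolynomial (Fin (n + 1)) (Polynomial (𝓞 K)))
    (hfew : ∀ ε : ℝ, 0 < ε → {v : HeightOneSpectrum (𝓞 K) | (Ideal.absNorm v.asIdeal).Prime ∧
      ¬ (((range (Ideal.absNorm v.asIdeal)).filter fun t : ℕ => ¬ Good m e v (mem f t)).card : ℝ) ≤
          ε * Ideal.absNorm v.asIdeal}.Finite)
    (η : ℝ) (hη : 0 < η) (θ : ℝ) (hθ0 : 0 < θ) (hθ1 : θ < 1) :
    ∃ A : ℝ, ∀ X Q₀ Q₁ : ℕ, 1 ≤ Q₀ →
      ({t : ℕ | (1 ≤ t ∧ t ≤ X) ∧ ∃ Q, Q₀ ≤ Q ∧ Q ≤ Q₁ ∧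
        (Nat.card {v : HeightOneSpectrum (𝓞 K) // Ideal.absNorm v.asIdeal ≤ Q ∧
          Good m e v (mem f t)} : ℝ) < (1 - η) * allP K Q}.ncard : ℝ) ≤
        A * (X * (Q₀ : ℝ) ^ (θ - 1) + (Q₁ : ℝ) ^ (1 + θ)) := by
  obtain ⟨A, hA⟩ := abs_sup K (J := Unit) (Γ := Unit)
    (fun _ v t => Good m e v (mem f (t ()))) (fun _ => True) 1
    one_pos le_rfl (dens_true (K := K)) 1 zero_le_one le_rfl (by
      intro ε hε
      refine ⟨fun v => (Ideal.absNorm v.asIdeal).Prime ∧ v ∉ (hfew ε hε).toFinset, ?_,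
        fun v hv => ⟨trivial, hv.1⟩, ?_⟩
      · have h1 : Tendsto (fun N => dens (fun v : HeightOneSpectrum (𝓞 K) =>
            ¬ (Ideal.absNorm v.asIdeal).Prime) N +
              dens (fun v => v ∈ (hfew ε hε).toFinset) N) atTop (𝓝 (0 + 0)) :=
          (dens_not_prime (K := K)).add (dens_finite _ (Finset.finite_toSet _))
        rw [add_zero] at h1
        refine squeeze_zero (fun N => dens_nonneg _ _) (fun N => ?_) h1
        refine le_trans (dens_mono (Q := fun v => ¬ (Ideal.absNorm v.asIdeal).Prime ∨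
          v ∈ (hfew ε hε).toFinset) ?_ N) (dens_or _ _ N)
        rintro v ⟨_, hv⟩
        by_cases h3 : (Ideal.absNorm v.asIdeal).Prime
        · right
          by_contra h4
          exact hv ⟨h3, h4⟩
        · exact Or.inl h3
      · rintro _ v ⟨hv, hvF⟩
        refine ⟨fun t => good_mod m f v hv _, ?_⟩
        have hbad : (((range (Ideal.absNorm v.asIdeal)).filter fun t : ℕ =>
            ¬ Good m e v (mem f t)).card : ℝ) ≤ ε * Ideal.absNorm v.asIdeal := by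
          by_contra hno
          exact hvF ((hfew ε hε).mem_toFinset.mpr ⟨hv, hno⟩)
        set S : Finset (Unit → ℕ) := ((range (Ideal.absNorm v.asIdeal)).filter fun t : ℕ =>
          Good m e v (mem f t)).image fun t _ => t with hS
        refine ⟨S, ?_, ?_⟩
        · intro a ha
          obtain ⟨t, ht, rfl⟩ := mem_image.mp ha
          rw [mem_filter, mem_range] at ht
          exact ⟨fun _ => ht.1, ht.2⟩
        · have h1 : S.card = ((range (Ideal.absNorm v.asIdeal)).filter fun t : ℕ =>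
              Good m e v (mem f t)).card := by
            rw [hS, card_image_of_injective]
            intro a b hab
            exact congrFun hab ()
          have h2 := card_filter_add_card_filter_not (s := range (Ideal.absNorm v.asIdeal))
            (fun t : ℕ => Good m e v (mem f t))
          rw [card_range] at h2
          have hp : (0 : ℝ) < Ideal.absNorm v.asIdeal := by exact_mod_cast hv.pos
          rw [Fintype.card_unit, pow_one, le_div_iff₀ hp, h1]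
          have h3 : (((range (Ideal.absNorm v.asIdeal)).filter fun t : ℕ =>
              Good m e v (mem f t)).card : ℝ) + (((range (Ideal.absNorm v.asIdeal)).filter
              fun t : ℕ => ¬ Good m e v (mem f t)).card : ℝ) = Ideal.absNorm v.asIdeal := by
            exact_mod_cast h2
          linarith) (η / 2) (by positivity) θ hθ0 hθ1
  refine ⟨A, fun X Q₀ Q₁ hQ₀ => ?_⟩
  obtain ⟨δ, hδ, h⟩ := hA ()
  have h1 := h X Q₀ Q₁ hQ₀
  simp only [true_and] at h1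
  rw [Fintype.card_unit, pow_one, Nat.sub_self, pow_zero, one_mul] at h1
  refine le_trans ?_ h1
  have hfin : {t : Unit → ℕ | (∀ j, 1 ≤ t j ∧ t j ≤ X) ∧ ∃ Q, Q₀ ≤ Q ∧ Q ≤ Q₁ ∧
      η / 2 * allP K Q < |(Nat.card {v : HeightOneSpectrum (𝓞 K) // Ideal.absNorm v.asIdeal ≤ Q ∧
          Good m e v (mem f (t ()))} : ℝ) - δ Q * allP K Q|}.Finite := by
    refine (Finset.finite_toSet (Fintype.piFinset fun _ : Unit => Finset.Icc 1 X)).subset ?_
    intro t ht
    rw [Finset.mem_coe, Fintype.mem_piFinset]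
    exact fun j => Finset.mem_Icc.mpr (ht.1 j)
  refine Nat.cast_le.mpr ?_
  rw [← Set.ncard_image_of_injective _ (f := fun (t : ℕ) (_ : Unit) => t)
    (fun a b hab => congrFun hab ())]
  refine Set.ncard_le_ncard ?_ hfin
  rintro _ ⟨t, ⟨ht, Q, hq1, hq2, hq3⟩, rfl⟩
  refine ⟨fun _ => ht, Q, hq1, hq2, ?_⟩
  have h2 := hδ Q
  have h3 : (0 : ℝ) ≤ allP K Q := Nat.cast_nonneg _
  have h4 : (1 - η / 2) * (allP K Q : ℝ) ≤ δ Q * allP K Q :=
    mul_le_mul_of_nonneg_right (by linarith) h3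
  rw [abs_sub_comm]
  refine lt_of_lt_of_le ?_ (le_abs_self _)
  nlinarith

open Classical in
/-- **Most scales, with few exceptions.** -/
theorem mostscales (m : ℕ) (f : MvPolynomial (Fin (n + 1)) (Polynomial (𝓞 K)))
    (hfew : ∀ ε : ℝ, 0 < ε → {v : HeightOneSpectrum (𝓞 K) | (Ideal.absNorm v.asIdeal).Prime ∧
      ¬ (((range (Ideal.absNorm v.asIdeal)).filter fun t : ℕ => ¬ Good m e v (mem f t)).card : ℝ) ≤
          ε * Ideal.absNorm v.asIdeal}.Finite)
    (η δ : ℝ) (hη : 0 < η) (hδ : 0 < δ) :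
    ∃ C : ℝ, ∀ X Q₀ Q₁ : ℕ, 1 ≤ Q₀ → (X : ℝ) ^ δ * Q₀ ≤ Q₁ →
      ({t : ℕ | (1 ≤ t ∧ t ≤ X) ∧
        (Nat.card {j : ℕ // (Q₀ ≤ 2 ^ j ∧ 2 ^ j ≤ Q₁) ∧ (1 - η) * allP K (2 ^ j) ≤
          (Nat.card {v : HeightOneSpectrum (𝓞 K) // Ideal.absNorm v.asIdeal ≤ 2 ^ j ∧
            Good m e v (mem f t)} : ℝ)} : ℝ) <
        (1 - η) * Nat.card {j : ℕ // Q₀ ≤ 2 ^ j ∧ 2 ^ j ≤ Q₁}}.ncard : ℝ) ≤ C * Q₁ := by
  obtain ⟨C, hC⟩ := ls_main Pool.Agent.Q102.AP.larger scale Pool.Agent.Q102.AP.mert K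
    (fun t v => ¬ Good m e v (mem f t)) (fun t v hv => not_congr (good_mod m f v hv t))
    (fun ε hε => (hfew ε hε).subset fun v hv => ⟨hv.1, fun h => hv.2 (le_trans (le_of_eq (by congr))
      h)⟩) η δ hη hδ
  refine ⟨C, fun X Q₀ Q₁ hQ₀ hQ => ?_⟩
  set E := {t : ℕ | (1 ≤ t ∧ t ≤ X) ∧
        (Nat.card {j : ℕ // (Q₀ ≤ 2 ^ j ∧ 2 ^ j ≤ Q₁) ∧ (1 - η) * allP K (2 ^ j) ≤
          (Nat.card {v : HeightOneSpectrum (𝓞 K) // Ideal.absNorm v.asIdeal ≤ 2 ^ j ∧
            Good m e v (mem f t)} : ℝ)} : ℝ) <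
        (1 - η) * Nat.card {j : ℕ // Q₀ ≤ 2 ^ j ∧ 2 ^ j ≤ Q₁}} with hE
  have hfin : E.Finite := (Finset.finite_toSet (Finset.Icc 1 X)).subset fun t ht => by
    rw [Finset.mem_coe, Finset.mem_Icc]
    exact ht.1
  rw [Set.ncard_eq_toFinset_card _ hfin]
  refine hC X Q₀ Q₁ hQ₀ hQ hfin.toFinset ?_
  intro t ht
  rw [Set.Finite.mem_toFinset] at ht
  obtain ⟨ht1, ht2⟩ := ht
  refine ⟨ht1.1, ht1.2, ?_⟩
  have hms : ∀ j, j ∈ scales Q₀ Q₁ ↔ Q₀ ≤ 2 ^ j ∧ 2 ^ j ≤ Q₁ := by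
    intro j
    unfold scales
    rw [mem_filter, mem_range]
    refine ⟨fun h => h.2, fun h => ⟨?_, h⟩⟩
    have : j < 2 ^ j := Nat.lt_two_pow_self
    omega
  have hcj : ∀ (R : ℕ → Prop), Nat.card {j : ℕ // (Q₀ ≤ 2 ^ j ∧ 2 ^ j ≤ Q₁) ∧ R j} =
      ((scales Q₀ Q₁).filter fun j => R j).card := by
    intro R
    have h4 : {j : ℕ | (Q₀ ≤ 2 ^ j ∧ 2 ^ j ≤ Q₁) ∧ R j}.Finite :=
      (Finset.finite_toSet (scales Q₀ Q₁)).subset fun j hj => mem_coe.mpr ((hms j).mpr hj.1)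
    have h5 : Nat.card {j : ℕ // (Q₀ ≤ 2 ^ j ∧ 2 ^ j ≤ Q₁) ∧ R j} = h4.toFinset.card :=
      Set.ncard_eq_toFinset_card _ h4
    rw [h5]
    congr 1
    ext j
    rw [Set.Finite.mem_toFinset, Finset.mem_filter, hms]
    rfl
  have hcj' : Nat.card {j : ℕ // Q₀ ≤ 2 ^ j ∧ 2 ^ j ≤ Q₁} = (scales Q₀ Q₁).card := by
    have h4 : {j : ℕ | Q₀ ≤ 2 ^ j ∧ 2 ^ j ≤ Q₁}.Finite :=
      (Finset.finite_toSet (scales Q₀ Q₁)).subset fun j hj => mem_coe.mpr ((hms j).mpr hj)
    have h5 : Nat.card {j : ℕ // Q₀ ≤ 2 ^ j ∧ 2 ^ j ≤ Q₁} = h4.toFinset.card :=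
      Set.ncard_eq_toFinset_card _ h4
    rw [h5]
    congr 1
    ext j
    rw [Set.Finite.mem_toFinset, hms]
    rfl
  have hcv : ∀ Q, Nat.card {v : HeightOneSpectrum (𝓞 K) // Ideal.absNorm v.asIdeal ≤ Q ∧
      Good m e v (mem f t)} = ((pls K Q).filter fun v => Good m e v (mem f t)).card := by
    intro Q
    have h4 : {v : HeightOneSpectrum (𝓞 K) | Ideal.absNorm v.asIdeal ≤ Q ∧
        Good m e v (mem f t)}.Finite :=
      (Pool.Agent.W352.ChAbs.finite_le (K := K) Q).subset fun v hv => hv.1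
    have h5 : Nat.card {v : HeightOneSpectrum (𝓞 K) // Ideal.absNorm v.asIdeal ≤ Q ∧
        Good m e v (mem f t)} = h4.toFinset.card := Set.ncard_eq_toFinset_card _ h4
    rw [h5]
    congr 1
    ext v
    rw [Set.Finite.mem_toFinset, Finset.mem_filter, mem_pls]
    rfl
  rw [hcj, hcj'] at ht2
  have h6 := card_filter_add_card_filter_not (s := scales Q₀ Q₁)
    (fun j => (1 - η) * allP K (2 ^ j) ≤ (Nat.card {v : HeightOneSpectrum (𝓞 K) //
      Ideal.absNorm v.asIdeal ≤ 2 ^ j ∧ Good m e v (mem f t)} : ℝ))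
  have h7 : (((scales Q₀ Q₁).filter fun j => (1 - η) * allP K (2 ^ j) ≤
      (Nat.card {v : HeightOneSpectrum (𝓞 K) // Ideal.absNorm v.asIdeal ≤ 2 ^ j ∧
        Good m e v (mem f t)} : ℝ)).card : ℝ) +
      (((scales Q₀ Q₁).filter fun j => ¬ (1 - η) * allP K (2 ^ j) ≤
      (Nat.card {v : HeightOneSpectrum (𝓞 K) // Ideal.absNorm v.asIdeal ≤ 2 ^ j ∧
        Good m e v (mem f t)} : ℝ)).card : ℝ) = (scales Q₀ Q₁).card := by
    exact_mod_cast h6
  have h8 : (((scales Q₀ Q₁).filter fun j => ¬ (1 - η) * allP K (2 ^ j) ≤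
      (Nat.card {v : HeightOneSpectrum (𝓞 K) // Ideal.absNorm v.asIdeal ≤ 2 ^ j ∧
        Good m e v (mem f t)} : ℝ)).card : ℝ) ≤ ((scales Q₀ Q₁).filter fun j =>
          η * allP K (2 ^ j) < ((pls K (2 ^ j)).filter fun v =>
            ¬ Good m e v (mem f t)).card).card := by
    refine Nat.cast_le.mpr (card_le_card fun j hj => ?_)
    rw [mem_filter] at hj ⊢
    refine ⟨hj.1, ?_⟩
    have h9 := hj.2
    rw [hcv] at h9
    have h10 := card_filter_add_card_filter_not (s := pls K (2 ^ j))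
      (fun v => Good m e v (mem f t))
    have h11 : (((pls K (2 ^ j)).filter fun v => Good m e v (mem f t)).card : ℝ) +
        (((pls K (2 ^ j)).filter fun v => ¬ Good m e v (mem f t)).card : ℝ) =
          allP K (2 ^ j) := by
      rw [allP_eq]
      exact_mod_cast h10
    push Not at h9
    linarith
  refine le_trans ?_ (h8.trans (le_of_eq ?_))
  · linarith
  · congr
    funext j
    congr

end

end Pool.Agent.Q267.AP
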