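import Pool.Agent.Q267.AP.StmN
import Pool.Agent.Q267.DC.Sup

/-!
# Bad scales
-/

set_option autoImplicit false

open Finset

namespace Pool.Agent.Q267.AP

open NumberField IsDedekindDomain Filter Topology
open Pool.Agent.Q267.OD (allP)

lemma allP_eq (K : Type) [Field K] [NumberField K] (Q : ℕ) : allP K Q = (pls K Q).card :=
  Set.ncard_eq_toFinset_card _ (Pool.Agent.W352.ChAbs.finite_le (K := K) Q)

lemma mem_pls {K : Type} [Field K] [NumberField K] {Q : ℕ} {v : HeightOneSpectrum (𝓞 K)} :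
    v ∈ pls K Q ↔ Ideal.absNorm v.asIdeal ≤ Q := by
  unfold pls
  rw [Set.Finite.mem_toFinset]
  rfl

/-- The number of places at dyadic scales. -/
lemma dyadic (K : Type) [Field K] [NumberField K] : ∃ j₀ : ℕ, ∀ j, j₀ ≤ j →
    1 / 2 * (2 : ℝ) ^ j ≤ allP K (2 ^ j) * (j * Real.log 2) ∧
      allP K (2 ^ j) * (j * Real.log 2) ≤ 2 * (2 : ℝ) ^ j := by
  have h1 := (Pool.Agent.Q267.DC.all_tendsto K).comp (tendsto_pow_atTop_atTop_of_one_lt
    (show 1 < 2 by norm_num))
  have h2 := h1.eventually (lt_mem_nhds (show (1 / 2 : ℝ) < 1 by norm_num))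
  have h3 := h1.eventually (gt_mem_nhds (show (1 : ℝ) < 2 by norm_num))
  obtain ⟨j₀, hj₀⟩ := (h2.and h3).exists_forall_of_atTop
  refine ⟨j₀, fun j hj => ?_⟩
  obtain ⟨h4, h5⟩ := hj₀ j hj
  simp only [Function.comp_apply] at h4 h5
  have h6 : (0 : ℝ) < (2 : ℝ) ^ j := by positivity
  push_cast at h4 h5
  rw [lt_div_iff₀ h6, Real.log_pow] at h4
  rw [div_lt_iff₀ h6, Real.log_pow] at h5
  exact ⟨h4.le, h5.le⟩

open Classical in
theorem scale : S_Scale := by
  intro K _ _ η hη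
  obtain ⟨j₀, hj₀⟩ := dyadic K
  obtain ⟨b, hb⟩ : ∃ b : ℕ, 16 / η ≤ (2 : ℝ) ^ b := by
    obtain ⟨b, hb⟩ := pow_unbounded_of_one_lt (16 / η) (show (1 : ℝ) < 2 by norm_num)
    exact ⟨b, hb.le⟩
  have hlog : 0 < Real.log 2 := Real.log_pos (by norm_num)
  obtain ⟨j₁, hj₁⟩ : ∃ j₁, j₁ = j₀ + 2 * b + 1 := ⟨_, rfl⟩
  set a : HeightOneSpectrum (𝓞 K) → ℝ := fun v =>
    Real.log (Ideal.absNorm v.asIdeal) / Ideal.absNorm v.asIdeal with ha
  have ha0 : ∀ v, 0 ≤ a v := fun v => by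
    have : 0 ≤ Real.log (Ideal.absNorm v.asIdeal) := Real.log_natCast_nonneg _
    positivity
  set κ : ℝ := η ^ 2 / (8 * (b + 1)) with hκ
  have hb0 : (0 : ℝ) < (b : ℝ) + 1 := by positivity
  refine ⟨κ, η * j₁ / (8 * (b + 1)), by positivity, ?_⟩
  intro Bad Q₀ Q₁ hbad
  set J := (range (Q₁ + 1)).filter fun j => Q₀ ≤ 2 ^ j ∧ 2 ^ j ≤ Q₁ with hJ
  set J' := (range (Q₁ + 1)).filter fun j => Q₀ ≤ 2 ^ j ∧ 2 ^ j ≤ Q₁ ∧
          η * allP K (2 ^ j) < ((pls K (2 ^ j)).filter fun v => Bad v).card with hJ'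
  set J₁ := J'.filter fun j => j₁ ≤ j with hJ₁
  set P := (pls K Q₁).filter fun v => Bad v with hP
  set B : ℕ → Finset (HeightOneSpectrum (𝓞 K)) := fun j =>
    (pls K (2 ^ j)).filter fun v => Bad v ∧ 2 ^ (j - b) < Ideal.absNorm v.asIdeal with hB
  have hBm : ∀ j v, v ∈ B j ↔ Ideal.absNorm v.asIdeal ≤ 2 ^ j ∧ Bad v ∧
      2 ^ (j - b) < Ideal.absNorm v.asIdeal := by
    intro j v
    change v ∈ (pls K (2 ^ j)).filter _ ↔ _
    rw [mem_filter, mem_pls]
  -- the bad scales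
  have h1 : (J'.card : ℝ) ≤ J₁.card + j₁ := by
    have h2 : J' ⊆ J₁ ∪ range j₁ := by
      intro j hj
      rw [mem_union, hJ₁, mem_filter, mem_range]
      by_cases h : j₁ ≤ j
      · exact Or.inl ⟨hj, h⟩
      · exact Or.inr (by omega)
    have h3 := (card_le_card h2).trans (card_union_le _ _)
    rw [card_range] at h3
    exact_mod_cast h3
  -- one bad scale
  have h2 : ∀ j ∈ J₁, η / 8 ≤ ∑ v ∈ B j, a v := by
    intro j hj
    rw [hJ₁, mem_filter, hJ', mem_filter] at hj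
    obtain ⟨⟨-, -, -, hjb⟩, hj1⟩ := hj
    have hjb' : b ≤ j := by omega
    have h3 := (hj₀ j (by omega)).1
    have h4 := (hj₀ (j - b) (by omega)).2
    have hj0 : (0 : ℝ) < j := by
      have : 0 < j := by omega
      exact_mod_cast this
    have hjbc : ((j - b : ℕ) : ℝ) = (j : ℝ) - b := by
      rw [Nat.cast_sub hjb']
    have hjb2 : (j : ℝ) / 2 ≤ (j : ℝ) - b := by
      have : 2 * b ≤ j := by omega
      have h5 : (2 : ℝ) * b ≤ j := by exact_mod_cast this
      linarith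
    rw [hjbc] at h4
    have h2pos : (0 : ℝ) < 2 ^ (j - b) := by positivity
    have h2b : (2 : ℝ) ^ (j - b) * 2 ^ b = 2 ^ j := by
      rw [← pow_add, Nat.sub_add_cancel hjb']
    -- the number of places up to `2 ^ (j - b)`
    have h5 : (allP K (2 ^ (j - b)) : ℝ) ≤ η / 2 * allP K (2 ^ j) := by
      have hjl : 0 < (j : ℝ) * Real.log 2 := by positivity
      have h6 : (allP K (2 ^ (j - b)) : ℝ) * (j * Real.log 2) ≤ 4 * 2 ^ (j - b) := by
        have h7 : (allP K (2 ^ (j - b)) : ℝ) * (j / 2 * Real.log 2) ≤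
            allP K (2 ^ (j - b)) * ((j - b) * Real.log 2) :=
          mul_le_mul_of_nonneg_left (mul_le_mul_of_nonneg_right hjb2 hlog.le) (Nat.cast_nonneg _)
        linarith
      have h7 : 4 * (2 : ℝ) ^ (j - b) ≤ η / 4 * 2 ^ j := by
        rw [← h2b]
        have h8 : 16 ≤ 2 ^ b * η := by
          rwa [div_le_iff₀ hη] at hb
        nlinarith
      have h8 : (allP K (2 ^ (j - b)) : ℝ) * (j * Real.log 2) ≤
          (η / 2 * allP K (2 ^ j)) * (j * Real.log 2) := by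
        have h9 : η / 4 * (2 : ℝ) ^ j ≤ η / 2 * (allP K (2 ^ j) * (j * Real.log 2)) := by
          nlinarith
        linarith
      exact le_of_mul_le_mul_right h8 hjl
    have h6 : (((pls K (2 ^ j)).filter fun v => Bad v).card : ℝ) ≤ (B j).card +
        allP K (2 ^ (j - b)) := by
      rw [allP_eq]
      have h7 : (pls K (2 ^ j)).filter (fun v => Bad v) ⊆ B j ∪ pls K (2 ^ (j - b)) := by
        intro v hv
        rw [mem_filter, mem_pls] at hv
        rw [mem_union, hBm, mem_pls]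
        by_cases h : 2 ^ (j - b) < Ideal.absNorm v.asIdeal
        · exact Or.inl ⟨hv.1, hv.2, h⟩
        · exact Or.inr (not_lt.mp h)
      exact_mod_cast (card_le_card h7).trans (card_union_le _ _)
    have h7 : η / 2 * allP K (2 ^ j) ≤ (B j).card := by linarith
    have h8 : ∀ v ∈ B j, (j / 2 * Real.log 2) / 2 ^ j ≤ a v := by
      intro v hv
      rw [hBm] at hv
      obtain ⟨hv1, -, hv2⟩ := hv
      have hN0 : (0 : ℝ) < Ideal.absNorm v.asIdeal := by
        have h9 : 0 < Ideal.absNorm v.asIdeal := lt_of_le_of_lt (Nat.zero_le _) hv2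
        exact_mod_cast h9
      have h9 : (j : ℝ) / 2 * Real.log 2 ≤ Real.log (Ideal.absNorm v.asIdeal) := by
        have h10 : ((j - b : ℕ) : ℝ) * Real.log 2 ≤ Real.log (Ideal.absNorm v.asIdeal) := by
          rw [← Real.log_pow]
          exact Real.log_le_log (by positivity) (by exact_mod_cast hv2.le)
        rw [hjbc] at h10
        have h11 : (j : ℝ) / 2 * Real.log 2 ≤ ((j : ℝ) - b) * Real.log 2 :=
          mul_le_mul_of_nonneg_right hjb2 hlog.le
        linarith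
      rw [ha]
      have h10 : (Ideal.absNorm v.asIdeal : ℝ) ≤ 2 ^ j := by exact_mod_cast hv1
      exact div_le_div₀ (Real.log_natCast_nonneg _) h9 hN0 h10
    calc η / 8 = (η / 2 * (1 / 2 * 2 ^ j)) * (1 / 2 / 2 ^ j) := by
          field_simp
          ring
      _ ≤ (η / 2 * (allP K (2 ^ j) * (j * Real.log 2))) * (1 / 2 / 2 ^ j) := by
          gcongr
      _ = (η / 2 * allP K (2 ^ j)) * ((j / 2 * Real.log 2) / 2 ^ j) := by ring
      _ ≤ (B j).card * ((j / 2 * Real.log 2) / 2 ^ j) := by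
          gcongr
      _ = ∑ _v ∈ B j, (j / 2 * Real.log 2) / 2 ^ j := by
          rw [sum_const, nsmul_eq_mul]
      _ ≤ _ := sum_le_sum h8
  -- double counting
  have h3 : ∑ j ∈ J₁, ∑ v ∈ B j, a v ≤ (b + 1) * ∑ v ∈ P, a v := by
    have h4 : ∀ j ∈ J₁, ∑ v ∈ B j, a v = ∑ v ∈ P, if v ∈ B j then a v else 0 := by
      intro j hj
      rw [← sum_filter]
      refine sum_congr ?_ fun _ _ => rfl
      apply Finset.ext
      intro v
      refine ⟨fun hv => mem_filter.mpr ⟨?_, hv⟩, fun hv => (mem_filter.mp hv).2⟩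
      rw [hJ₁, mem_filter, hJ', mem_filter] at hj
      rw [hBm] at hv
      rw [hP, mem_filter, mem_pls]
      exact ⟨hv.1.trans hj.1.2.2.1, hv.2.1⟩
    rw [sum_congr rfl h4, sum_comm, mul_sum]
    refine sum_le_sum fun v _ => ?_
    rw [← sum_filter, sum_const, nsmul_eq_mul]
    refine mul_le_mul_of_nonneg_right ?_ (ha0 v)
    have h5 : J₁.filter (fun j => v ∈ B j) ⊆
        Finset.Ico (Nat.clog 2 (Ideal.absNorm v.asIdeal))
          (Nat.clog 2 (Ideal.absNorm v.asIdeal) + b) := by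
      intro j hj
      rw [mem_filter, hJ₁, mem_filter, hBm] at hj
      rw [mem_Ico]
      have h6 := (Nat.clog_le_iff_le_pow (b := 2) (by norm_num)).mpr hj.2.1
      have h7 := (Nat.lt_clog_iff_pow_lt (b := 2) (by norm_num)).mpr hj.2.2.2
      omega
    have h6 := card_le_card h5
    rw [Nat.card_Ico] at h6
    have h7 : (J₁.filter (fun j => v ∈ B j)).card ≤ b + 1 := by omega
    exact_mod_cast h7
  have h4 : J₁.card * (η / 8) ≤ ∑ j ∈ J₁, ∑ v ∈ B j, a v := by
    rw [← nsmul_eq_mul]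
    exact card_nsmul_le_sum _ _ _ h2
  have h5 : (J₁.card : ℝ) * (η / 8) ≤ (b + 1) * ∑ v ∈ P, a v := h4.trans h3
  have h6 : η * J.card - j₁ ≤ J₁.card := by linarith
  have h7 : (η * J.card - j₁) * (η / 8) ≤ (b + 1) * ∑ v ∈ P, a v :=
    (mul_le_mul_of_nonneg_right h6 (by positivity)).trans h5
  have h8 : κ * J.card - η * j₁ / (8 * (b + 1)) = (η * J.card - j₁) * (η / 8) / (b + 1) := by
    rw [hκ]
    field_simp
  rw [h8, div_le_iff₀ hb0, mul_comm (∑ v ∈ P, a v)]
  exact h7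

end Pool.Agent.Q267.AP
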