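import Pool.Agent.Q267.AP.Ser

/-!
# The zeros of the Hasse-Witt determinant on the curves `s = γ S ^ N`
-/

set_option autoImplicit false

open Finset

namespace Pool.Agent.Q267.AP

open Pool.Agent.Q267.ST
open Pool.Agent.Q267.DC (hm hm_map det_hm_map)

section main

variable {ι J : Type} [Fintype ι] [DecidableEq ι] [Fintype J] [DecidableEq J]

omit [Fintype J] [DecidableEq J] in
lemma pmat_map {A B : Type} [CommRing A] [CommRing B] (φ : A →+* B) (o : ι) (w : J → ι →₀ ℕ)
    (M : J → Matrix ι ι A) (Ψ : J → PowerSeries (LP ι A)) :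
    pmat o w (fun j => (M j).map φ) (fun j => PowerSeries.map (LPm φ) (Ψ j)) =
      (pmat o w M Ψ).map (PowerSeries.map φ) := by
  ext1 j l
  rw [Matrix.map_apply]
  exact per_map φ (om o) (M j) (Ψ j) (w l)

/-- The Frobenius structure. -/
lemma det_star (hStar : S_Star) {k : Type} [Field k] (p : ℕ) [Fact p.Prime] [CharP k p]
    (hp : p ≠ 0) (o : ι) (w : J → ι →₀ ℕ) (hw : Function.Injective w) (hw1 : ∀ j i, 1 ≤ w j i)
    (m e : ℕ) (he : e * m + 1 = p) (f : MvPolynomial ι (Polynomial k))
    (hsupp : ∀ l, ∀ v ∈ (MvPolynomial.monomial (w l) 1 * f ^ e).support,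
      (∃ v' : ι →₀ ℕ, v = p • v') → ∃ i, v = p • w i)
    (M : J → Matrix ι ι k) (γ : k) (N : ℕ) (Ψ G : J → PowerSeries (LP ι k))
    (h1 : ∀ j, Ψ j ^ m * G j = 1)
    (h2 : ∀ j, chart (om o) γ N (M j) f = PowerSeries.X ^ (m * ∑ i, om o i) * G j) :
    (pmat o w M Ψ).det = (PowerSeries.C (∏ j, (M j).det ^ (p - 1)) *
      PowerSeries.expand p hp (PowerSeries.map (frobenius k p) (pmat o w M Ψ).det)) *
        (((hm e p w f).det.comp (Polynomial.C γ * Polynomial.X ^ N) : Polynomial k) :
          PowerSeries k) := by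
  have h3 : pmat o w M Ψ = Matrix.diagonal (fun j => PowerSeries.C ((M j).det ^ (p - 1))) *
      (((pmat o w M Ψ).map (PowerSeries.map (frobenius k p))).map (PowerSeries.expand p hp) *
        ((hm e p w f).map (Polynomial.compRingHom (Polynomial.C γ * Polynomial.X ^ N))).map
          (Polynomial.coeToPowerSeries.ringHom (R := k))) := by
    ext1 j l
    rw [Matrix.diagonal_mul, Matrix.mul_apply]
    have h4 := hStar ι J k p hp w hw hw1 m e he f hsupp (M j) (om o) γ N (Ψ j) (G j) (h1 j) (h2 j) l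
    refine h4.trans ?_
    congr 1
    refine sum_congr rfl fun i _ => ?_
    rw [mul_comm]
    rfl
  have h5 := congrArg Matrix.det h3
  rw [Matrix.det_mul, Matrix.det_mul, Matrix.det_diagonal] at h5
  have h6 : (((pmat o w M Ψ).map (PowerSeries.map (frobenius k p))).map
      (PowerSeries.expand p hp)).det =
      PowerSeries.expand p hp (PowerSeries.map (frobenius k p) (pmat o w M Ψ).det) := by
    rw [RingHom.map_det, AlgHom.map_det]
    rfl
  have h7 : (((hm e p w f).map (Polynomial.compRingHom (Polynomial.C γ * Polynomial.X ^ N))).map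
          (Polynomial.coeToPowerSeries.ringHom (R := k))).det =
      (((hm e p w f).det.comp (Polynomial.C γ * Polynomial.X ^ N) : Polynomial k) :
          PowerSeries k) := by
    have h8 := RingHom.map_det (Polynomial.coeToPowerSeries.ringHom (R := k))
      ((hm e p w f).map (Polynomial.compRingHom (Polynomial.C γ * Polynomial.X ^ N)))
    have h9 := RingHom.map_det (Polynomial.compRingHom (Polynomial.C γ * Polynomial.X ^ N))
      (hm e p w f)
    rw [Polynomial.coeToPowerSeries.ringHom_apply] at h8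
    change _ = Matrix.det (((hm e p w f).map
      (Polynomial.compRingHom (Polynomial.C γ * Polynomial.X ^ N))).map
          (Polynomial.coeToPowerSeries.ringHom (R := k))) at h8
    rw [← h8]
    congr 1
    exact h9.symm
  rw [h6, h7, ← mul_assoc] at h5
  rw [map_prod]
  exact h5

variable {A : Type} [CommRing A] [IsDomain A] [CharZero A]

/-- **The soft Stepanov theorem for the curves `s = γ S ^ N`.** -/
theorem soft1 (hSoft : S_Soft) (hLip : S_Lip) (hadd : S_DFadd) (hmul : S_DFmul)
    (hpoly : S_DFpoly) (hto : S_DFtoODE) (hroot : S_Root) (hNorm : S_Norm) (hConst : S_Const)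
    (hPerD : S_PerD) (hStar : S_Star)
    (o : ι) (m E N : ℕ) (hm12 : m = 1 ∨ m = 2) (hN : m * (Fintype.card ι - 1) + 1 ≤ N)
    (w : J → ι →₀ ℕ) (hw : Function.Injective w) (hw1 : ∀ j i, 1 ≤ w j i)
    (hwE : ∀ j, ∑ i, w j i = E + (Fintype.card ι - 1))
    (μ γ : A) (hμ : (m : A) ^ 2 * μ = 1) (c c' : J → A) (hc : ∀ j, c j * c' j = 1)
    (M : J → Matrix ι ι A) (hM : ∀ j, IsUnit (M j).det) (h : MvPolynomial ι A)
    (r : J → MvPolynomial ι A) (g : MvPolynomial ι (Polynomial A))
    (hr : ∀ j, lin (M j) h = (∏ i ∈ univ.erase o, MvPolynomial.X i) * r j)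
    (hrE : ∀ j, ∀ u ∈ (r j).support, ∑ i, u i = E)
    (hrc : ∀ j, MvPolynomial.coeff (Finsupp.single o E) (r j) = c j)
    (hV : (vert o w M).det ≠ 0) (ε : ℝ) (hε : 0 < ε) (H : ℕ)
    (hH : ∀ v, (MvPolynomial.coeff v (MvPolynomial.map Polynomial.C h ^ m +
      MvPolynomial.C Polynomial.X * g)).natDegree ≤ H) :
    ∃ (p₀ : ℕ) (a : A), a ≠ 0 ∧ ∀ (p : ℕ) (k : Type) [Field k] [CharP k p] (φ : A →+* k),
      p.Prime → p₀ ≤ p → φ a ≠ 0 → ∀ e : ℕ, e * m + 1 = p →
      (∀ l, ∀ v ∈ (MvPolynomial.monomial (w l) 1 *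
        (MvPolynomial.map (Polynomial.mapRingHom φ) (MvPolynomial.map Polynomial.C h ^ m +
          MvPolynomial.C Polynomial.X * g)) ^ e).support,
        (∃ v' : ι →₀ ℕ, v = p • v') → ∃ i, v = p • w i) →
      ∀ T : Finset k, (∀ s ∈ T, s ^ p = s ∧ (hm e p w (MvPolynomial.map
        (Polynomial.mapRingHom φ) (MvPolynomial.map Polynomial.C h ^ m +
          MvPolynomial.C Polynomial.X * g))).det.eval (φ γ * s ^ N) = 0) →
      (T.card : ℝ) ≤ ε * p := by
  classical
  set f := MvPolynomial.map Polynomial.C h ^ m + MvPolynomial.C Polynomial.X * g with hf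
  obtain ⟨Ψ, G, hΨ, hch, hode, hD1⟩ := series hLip hadd hmul hpoly hto hroot hNorm hConst hPerD
    o m E N hm12 hN w hw1 hwE μ γ hμ c c' hc M h r g hr hrE hrc
  set D := (pmat o w M Ψ).det with hD
  set V := (vert o w M).det with hVd
  have hm1 : 1 ≤ m := by omega
  have hc'0 : ∀ j, c' j ≠ 0 := fun j h0 => by
    have := hc j
    rw [h0, mul_zero] at this
    exact zero_ne_one this
  have hD0 : D ≠ 0 := by
    intro h0
    rw [h0, map_zero] at hD1
    exact mul_ne_zero (prod_ne_zero_iff.mpr fun j _ => hc'0 j) hV hD1.symm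
  obtain ⟨p₀, a, ha, hS⟩ := hSoft A D hD0 hode ε hε (Fintype.card J * H * N)
  refine ⟨p₀, a * V, mul_ne_zero ha hV, ?_⟩
  intro p k _ _ φ hpp hp0 hφ e he hsupp T hT
  have hfact : Fact p.Prime := ⟨hpp⟩
  have hp : p ≠ 0 := hpp.ne_zero
  rw [map_mul] at hφ
  have hφa : φ a ≠ 0 := left_ne_zero_of_mul hφ
  have hφV : φ V ≠ 0 := right_ne_zero_of_mul hφ
  have hφc : ∀ j, φ (c' j) ≠ 0 := fun j h0 => by
    have := congrArg φ (hc j)
    rw [map_mul, h0, mul_zero, map_one] at this
    exact zero_ne_one this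
  have hφM : ∀ j, ((M j).map φ).det ≠ 0 := fun j => by
    have h1 := (hM j).map φ
    rw [RingHom.map_det] at h1
    exact h1.ne_zero
  set fk := MvPolynomial.map (Polynomial.mapRingHom φ) f with hfk
  have hid := det_star hStar p hp o w hw hw1 m e he fk hsupp (fun j => (M j).map φ) (φ γ) N
    (fun j => PowerSeries.map (LPm φ) (Ψ j)) (fun j => PowerSeries.map (LPm φ) (G j))
    (fun j => by rw [← map_pow, ← map_mul, hΨ j, map_one])
    (fun j => by
      rw [hfk, chart_map, hch j, map_mul, map_pow, PowerSeries.map_X])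
  rw [pmat_map] at hid
  have hDk : ((pmat o w M Ψ).map (PowerSeries.map φ)).det = PowerSeries.map φ D := by
    rw [hD, RingHom.map_det]
    rfl
  rw [hDk] at hid
  set dk := (hm e p w fk).det with hdk
  set P := dk.comp (Polynomial.C (φ γ) * Polynomial.X ^ N) with hP
  obtain ⟨b, hb⟩ : ∃ b : k, b = ∏ j, ((M j).map φ).det ^ (p - 1) := ⟨_, rfl⟩
  rw [← hb] at hid
  have hb0 : b ≠ 0 := by
    rw [hb]
    exact prod_ne_zero_iff.mpr fun j _ => pow_ne_zero _ (hφM j)
  set u := PowerSeries.C b * PowerSeries.expand p hp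
    (PowerSeries.map (frobenius k p) (PowerSeries.map φ D)) with hu
  have hu1 : PowerSeries.constantCoeff u ≠ 0 := by
    rw [hu, map_mul, PowerSeries.constantCoeff_C, PowerSeries.constantCoeff_expand,
      ← PowerSeries.coeff_zero_eq_constantCoeff_apply, PowerSeries.coeff_map,
      PowerSeries.coeff_map, PowerSeries.coeff_zero_eq_constantCoeff_apply, hD1, frobenius_def]
    refine mul_ne_zero hb0 (pow_ne_zero _ ?_)
    rw [map_mul, map_prod]
    exact mul_ne_zero (prod_ne_zero_iff.mpr fun j _ => hφc j) hφV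
  have huu : u * u⁻¹ = 1 := PowerSeries.mul_inv_cancel u hu1
  have hP1 : (P : PowerSeries k) = u⁻¹ * PowerSeries.map φ D := by
    rw [hid]
    calc (P : PowerSeries k) = (u * u⁻¹) * P := by rw [huu, one_mul]
      _ = _ := by ring
  refine hS p k φ hpp hp0 hφa P u⁻¹ ?_ ?_ hP1 ?_ T ?_
  · -- derivative
    have h2 := deriv_expand p hp (PowerSeries.map (frobenius k p) (PowerSeries.map φ D))
    have h3 : PowerSeries.derivative k (PowerSeries.C b) = 0 := PowerSeries.derivative_C
    have h4 : PowerSeries.derivative k u = 0 := by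
      rw [hu, Derivation.leibniz, h3, h2, smul_zero, smul_zero, add_zero]
    rw [PowerSeries.derivative_inv', h4, mul_zero]
  · rw [PowerSeries.constantCoeff_inv]
    exact inv_ne_zero hu1
  · -- degree
    have h2 : P.natDegree ≤ dk.natDegree * N := by
      rw [hP]
      refine Polynomial.natDegree_comp_le.trans (Nat.mul_le_mul_left _ ?_)
      exact Polynomial.natDegree_C_mul_X_pow_le _ _
    have h3 : ∀ v, (MvPolynomial.coeff v fk).natDegree ≤ H := by
      intro v
      rw [hfk, MvPolynomial.coeff_map, Polynomial.coe_mapRingHom]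
      exact (Polynomial.natDegree_map_le).trans (hH v)
    have h4 := natDegree_det_hm h3 e p w
    have h5 : e ≤ p := by
      have : e ≤ e * m := Nat.le_mul_of_pos_right e (by omega)
      omega
    calc P.natDegree ≤ (Fintype.card J * (e * H)) * N := h2.trans (Nat.mul_le_mul_right _ h4)
      _ ≤ (Fintype.card J * (p * H)) * N :=
        Nat.mul_le_mul_right _ (Nat.mul_le_mul_left _ (Nat.mul_le_mul_right _ h5))
      _ = _ := by ring
  · intro s hs
    obtain ⟨hs0, hs1⟩ := hT s hs
    refine ⟨hs0, ?_⟩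
    rw [hP, Polynomial.eval_comp, Polynomial.eval_mul, Polynomial.eval_C, Polynomial.eval_pow,
      Polynomial.eval_X]
    exact hs1

end main

end Pool.Agent.Q267.AP
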