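import Pool.Agent.Q267.AP.Def
import Pool.Agent.Q267.DC.LeadW

/-!
# Statements for families through a hyperplane arrangement
-/

set_option autoImplicit false

open Finset

namespace Pool.Agent.Q267.AP

open Pool.Agent.Q267.ST
open Pool.Agent.Q267.DC (hm)
open IsDedekindDomain

/-- The Cartier operator and linear substitutions over a field of characteristic `p`. Proof. By
`Matrix.diagonal_transvection_induction` (the formula is multiplicative in `M`: `lin (M M')` is the
composition) it is enough to treat diagonal matrices and transvections; both sides are additive, so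
`g = a x ^ v`. Diagonal: `c ^ (p u + p - 1) = c ^ (p - 1) (c ^ p) ^ u`. Transvection
`x_i ↦ x_i + c x_j`: the coefficient of `x_i ^ (v_i - b) x_j ^ (v_j + b)` is `choose v_i b c ^ b`; if
`v_i - b = -1` modulo `p`, then either `v_i = -1` modulo `p` and `b = p b'`,
`choose v_i b = choose (v_i / p) b'` modulo `p` (Lucas, `Choose.choose_modEq_choose_mod_mul_choose_div`),
or the last digit of `b` is larger than the last digit of `v_i` and the coefficient vanishes. -/
def S_Cart : Prop :=
  ∀ (ι k R : Type) [Fintype ι] [DecidableEq ι] [Field k] [CommRing R] [Algebra k R] (p : ℕ)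
    [Fact p.Prime] [CharP k p] (M : Matrix ι ι k) (g : MvPolynomial ι R),
    U p (lin (M.map (algebraMap k R)) g) =
      MvPolynomial.C (algebraMap k R (M.det ^ (p - 1))) *
        lin ((M.map (· ^ p)).map (algebraMap k R)) (U p g)

/-- The Frobenius (general field). -/
def S_FrobG : Prop :=
  ∀ (ι k : Type) [Fintype ι] [DecidableEq ι] [Field k] (p : ℕ) [Fact p.Prime] [CharP k p]
    (hp : p ≠ 0) (Ψ : PowerSeries (LP ι k)),
    (∀ u : ι → ℤ, cx (p • u) (Ψ ^ p) =
      PowerSeries.expand p hp (PowerSeries.map (frobenius k p) (cx u Ψ))) ∧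
      ∀ v : ι → ℤ, (∀ u : ι → ℤ, v ≠ p • u) → cx v (Ψ ^ p) = 0

/-- The basic identity between the periods and the Hasse-Witt matrix `hm e p w f`, whose entry
`(i, l)` is the coefficient of `x ^ (p w_i)` in `x ^ (w_l) f ^ e`. Proof (compare `star` in
`Pool/Agent/Q267/ST/Det.lean`). Put `n = ∑ ω_i`, `Q = x ^ (w_l - 1) f ^ e` and
`Θ = chart ω γ N M`. From `Ψ = Ψ ^ p g ^ e` and `Θ f = X ^ (m n) g` we get
`X ^ (n (p - 1)) Θ(x ^ (w_l - 1)) Ψ = Θ(Q) Ψ ^ p`. Compare the coefficients of `z ^ (-1)`:
by `S_CxMul` the right side is `∑_v coeff_v(scal (lin M Q)) cx (-1 - v) (Ψ ^ p)`, where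
only `v = p u + (p - 1, ..., p - 1)` contribute and
`cx (-p (u + 1)) (Ψ ^ p) = expand (Frobenius (cx (-(u + 1)) Ψ))` (S_FrobG);
`coeff_v (scal P) = S ^ (∑ ω_i v_i) (coeff_v P)(γ S ^ N)`, `∑ ω_i v_i = p ∑ ω_i u_i + n (p - 1)`;
`coeff_v (lin M Q) = coeff_u (U p (lin M Q)) = det(M) ^ (p - 1) coeff_u (lin M^(p) (U p Q))` (S_Cart) and
`U p Q = ∑_i hm_(i, l) x ^ (w_i - 1)`. -/
def S_Star : Prop :=
  ∀ (ι J k : Type) [Fintype ι] [DecidableEq ι] [Fintype J] [DecidableEq J] [Field k] (p : ℕ)
    [Fact p.Prime] [CharP k p] (hp : p ≠ 0) (w : J → ι →₀ ℕ), Function.Injective w →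
    (∀ j i, 1 ≤ w j i) → ∀ (m e : ℕ), e * m + 1 = p → ∀ (f : MvPolynomial ι (Polynomial k)),
    (∀ l, ∀ v ∈ (MvPolynomial.monomial (w l) 1 * f ^ e).support, (∃ v' : ι →₀ ℕ, v = p • v') →
      ∃ i, v = p • w i) →
    ∀ (M : Matrix ι ι k) (ω : ι → ℕ) (γ : k) (N : ℕ) (Ψ g : PowerSeries (LP ι k)),
    Ψ ^ m * g = 1 → chart ω γ N M f = PowerSeries.X ^ (m * ∑ i, ω i) * g → ∀ l : J,
    per ω M Ψ (w l) = PowerSeries.C (M.det ^ (p - 1)) *
      ∑ i, (((hm e p w f i l).comp (Polynomial.C γ * Polynomial.X ^ N) : Polynomial k) :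
          PowerSeries k) *
        PowerSeries.expand p hp (PowerSeries.map (frobenius k p) (per ω M Ψ (w i)))

/-- The normal form in a chart. `h` becomes `∏_(i ≠ o) z_i` times a form `r` of degree `E` with
`r(1, 0, ..., 0) = c`; `ω_o = 0` and `ω_i = 1` for `i ≠ o`. So
`Θ h = S ^ n (c z_o ^ E ∏_(i ≠ o) z_i + S (...))` and `Θ f = (Θ h) ^ m + γ S ^ N (...)` with
`N ≥ m n + 1`; divide by the monomial. -/
def S_Norm : Prop :=
  ∀ (ι A : Type) [Fintype ι] [DecidableEq ι] [CommRing A] (o : ι) (m E N : ℕ) (c c' μ γ : A)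
    (M : Matrix ι ι A) (h r : MvPolynomial ι A) (g : MvPolynomial ι (Polynomial A)),
    c * c' = 1 → (m : A) ^ 2 * μ = 1 →
    lin M h = (∏ i ∈ univ.erase o, MvPolynomial.X i) * r → (∀ u ∈ r.support, ∑ i, u i = E) →
    MvPolynomial.coeff (Finsupp.single o E) r = c → m * (Fintype.card ι - 1) + 1 ≤ N →
    ∃ y : Polynomial (LP ι A), y.coeff 0 = 0 ∧
      chart (fun i => if i = o then 0 else 1) γ N M
          (MvPolynomial.map Polynomial.C h ^ m + MvPolynomial.C Polynomial.X * g) =
        PowerSeries.X ^ (m * (Fintype.card ι - 1)) *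
          (cst (PowerSeries.C (c ^ m)) * xm (fun i => if i = o then (m * E : ℤ) else m) *
            (1 + (m : PowerSeries (LP ι A)) ^ 2 * (y : PowerSeries (LP ι A))))

/-- The constant term of a period: the value of `x ^ (w - 1)` at the vertex `M e_o`. -/
def S_Const : Prop :=
  ∀ (ι A : Type) [Fintype ι] [DecidableEq ι] [CommRing A] (o : ι) (E : ℕ) (c' : A)
    (M : Matrix ι ι A) (ψ : PowerSeries (LP ι A)) (w : ι →₀ ℕ), PowerSeries.constantCoeff ψ = 1 →
    (∀ i, 1 ≤ w i) → ∑ i, w i = E + (Fintype.card ι - 1) →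
    PowerSeries.constantCoeff (per (fun i => if i = o then 0 else 1) M
      (cst (PowerSeries.C c') * xm (fun i => if i = o then (-E : ℤ) else -1) * ψ) w) =
      c' * MvPolynomial.eval (fun i => M i o) (MvPolynomial.monomial (w - one ι) 1)

/-- The periods are D-finite. The period is a linear combination with polynomial coefficients of
series `cx u ψ` (S_CxMul, `cx_xm_mul`, `cx_cst_mul` in `Pool/Agent/Q267/ST/Scale.lean`), and sums and
products of D-finite series are D-finite. -/
def S_PerD : Prop :=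
  ∀ (ι A : Type) [Fintype ι] [DecidableEq ι] [CommRing A] [IsDomain A] (ω : ι → ℕ) (c' : A)
    (ν : ι → ℤ) (M : Matrix ι ι A) (ψ : PowerSeries (LP ι A)) (w : ι →₀ ℕ),
    (∀ u, HasODE (cx u ψ)) → DFin (per ω M (cst (PowerSeries.C c') * xm ν * ψ) w)

/-- The exponents `w` with `w i ≥ 1` and `∑ w i = e`. -/
abbrev Exps (n e : ℕ) :=
  {w : (i : Fin (n + 1)) → Fin (e + 1) // (∀ i, 0 < (w i : ℕ)) ∧ ∑ i, (w i : ℕ) = e}

/-- The exponent as a finitely supported function. -/
noncomputable def wexp (n e : ℕ) (w : Exps n e) : Fin (n + 1) →₀ ℕ :=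
  Finsupp.equivFunOnFinite.symm fun i => (w.1 i : ℕ)

/-- The charts at the vertices of a hyperplane arrangement in general position. Proof. If `e ≤ n`
there is no exponent. Otherwise, for a strictly increasing `σ : Fin (n + 1) → Fin e` with `σ 0 = 0` let
`M` be the inverse of the matrix with the rows `l (σ i)`: then `lin M (lf (l (σ i))) = X i` and
`lin M (lf (l j))` has at `X 0` the coefficient `det(l j, l (σ 1), ..., l (σ n)) / det(l (σ 0), ...)`, a
unit, for the other `j`; `r` is the product of these forms and of `X 0`. The number of the `σ` is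
`choose (e - 1) n`, which is the number of exponents. The matrix of the values of the monomials of
degree `e - n - 1` at the vertices `P_σ = M e_0` is invertible, because the products
`∏_(j ∉ range σ) lf (l j)` of degree `e - n - 1` vanish at all `P_τ`, `τ ≠ σ`, and do not vanish
at `P_σ`. -/
def S_Charts : Prop :=
  ∀ (n e : ℕ) (A : Type) [CommRing A] [IsDomain A] (l : Fin e → Fin (n + 1) → A),
    (∀ σ : Fin (n + 1) → Fin e, Function.Injective σ →
      IsUnit (Matrix.of fun i j => l (σ i) j).det) →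
    ∃ (M : Exps n e → Matrix (Fin (n + 1)) (Fin (n + 1)) A)
      (r : Exps n e → MvPolynomial (Fin (n + 1)) A),
      (∀ j, IsUnit (M j).det ∧
        lin (M j) (∏ i, lf (l i)) = (∏ i ∈ univ.erase 0, MvPolynomial.X i) * r j ∧
        (∀ u ∈ (r j).support, ∑ i, u i = e - n) ∧
        IsUnit (MvPolynomial.coeff (Finsupp.single 0 (e - n)) (r j))) ∧
      (Matrix.of fun j w => MvPolynomial.eval (fun i => M j i 0)
        (MvPolynomial.monomial (wexp n e w - one (Fin (n + 1))) (1 : A))).det ≠ 0

/-- Homomorphisms to fields. `B` is a finitely generated domain, algebraic over the Dedekind domain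
`R ⊂ B`, and `b ≠ 0`: for all but finitely many `v` the reduction at `v` extends to a homomorphism
`φ` of `B` to a field with `φ(b) ≠ 0`. (`B[1 / b]` is integral over `R[1 / a]` for some `a ≠ 0`; lying
over.) -/
def S_Spread : Prop :=
  ∀ (R B : Type) [CommRing R] [IsDedekindDomain R] [CommRing B] [IsDomain B] [Algebra R B],
    Function.Injective (algebraMap R B) → Algebra.FiniteType R B → Algebra.IsAlgebraic R B →
    ∀ b : B, b ≠ 0 → {v : HeightOneSpectrum R | ¬ ∃ (k : Type) (_ : Field k) (φ : B →+* k),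
      φ b ≠ 0 ∧ RingHom.ker (φ.comp (algebraMap R B)) = v.asIdeal}.Finite

end Pool.Agent.Q267.AP
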