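import Pool.Agent.Q267.OD.Fin

/-!
# Statements for the larger sieve
-/

set_option autoImplicit false

open Finset

namespace Pool.Agent.Q267.AP

open NumberField IsDedekindDomain
open Pool.Agent.Q267.OD (allP)

open Classical in
/-- A larger sieve. Proof. `(∑ a_v |E_v|) ^ 2 ≤ (∑ a_v) (∑ a_v |E_v| ^ 2)` with
`a_v = log q_v / q_v`; `|E_v| ^ 2 ≤ ε q_v ∑_a |{t ∈ E : t = a mod q_v}| ^ 2`; the sum over `v` of
`log q_v` times the number of pairs `(t, t')` in `E` with `q_v ∣ t - t'` is at most `d` times the same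
sum over the primes `p ≤ Q`; the pairs `t = t'` give `|E| θ(Q) ≤ |E| Q log 4`, a pair `t ≠ t'` gives at
most `log |t - t'| ≤ log X`. -/
def S_Larger : Prop :=
  ∀ (V : Type) (X Q d : ℕ) (E : Finset ℕ) (W : Finset V) (q : V → ℕ) (Bad : V → ℕ → Prop)
    (ε : ℝ), 0 < ε → (∀ t ∈ E, 1 ≤ t ∧ t ≤ X) → (∀ v ∈ W, (q v).Prime ∧ q v ≤ Q) →
    (∀ p, (W.filter fun v => q v = p).card ≤ d) →
    (∀ v ∈ W, ∀ t, Bad v t ↔ Bad v (t % q v)) →
    (∀ v ∈ W, (((range (q v)).filter fun a => Bad v a).card : ℝ) ≤ ε * q v) →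
    (∑ v ∈ W, Real.log (q v) / q v * (E.filter fun t => Bad v t).card) ^ 2 ≤
      ε * (∑ v ∈ W, Real.log (q v) / q v) *
        (d * (E.card * (Real.log 4 * Q) + (E.card : ℝ) ^ 2 * Real.log X))

/-- The places of norm at most `Q`. -/
noncomputable def pls (K : Type) [Field K] [NumberField K] (Q : ℕ) :
    Finset (HeightOneSpectrum (𝓞 K)) :=
  (Pool.Agent.W352.ChAbs.finite_le (K := K) Q).toFinset

open Classical in
/-- Many bad scales give many bad places, in logarithmic measure. Proof. Let `π(Q) = allP K Q`, so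
`π(Q) log Q / Q → 1` (`Pool.Agent.Q267.DC.all_tendsto`). For large `b` we have
`π(2 ^ (j - b)) ≤ (η / 2) π(2 ^ j)` for all large `j`, so at a bad scale `j` the bad places with
`2 ^ (j - b) < N v ≤ 2 ^ j` are at least `(η / 2) π(2 ^ j)`, and each of them has
`log N v / N v ≥ c (log 2 ^ j) / 2 ^ j`. Every place is counted at most `b` times. -/
def S_Scale : Prop :=
  ∀ (K : Type) [Field K] [NumberField K] (η : ℝ), 0 < η → ∃ (κ C : ℝ), 0 < κ ∧
    ∀ (Bad : HeightOneSpectrum (𝓞 K) → Prop) (Q₀ Q₁ : ℕ),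
      η * ((range (Q₁ + 1)).filter fun j => Q₀ ≤ 2 ^ j ∧ 2 ^ j ≤ Q₁).card ≤
        (((range (Q₁ + 1)).filter fun j => Q₀ ≤ 2 ^ j ∧ 2 ^ j ≤ Q₁ ∧
          η * allP K (2 ^ j) < ((pls K (2 ^ j)).filter fun v => Bad v).card).card : ℝ) →
      κ * ((range (Q₁ + 1)).filter fun j => Q₀ ≤ 2 ^ j ∧ 2 ^ j ≤ Q₁).card - C ≤
        ∑ v ∈ (pls K Q₁).filter fun v => Bad v,
          Real.log (Ideal.absNorm v.asIdeal) / Ideal.absNorm v.asIdeal

open Classical in
/-- Upper bounds: all places (Mertens), and the places of degree at least two. -/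
def S_Mert : Prop :=
  ∀ (K : Type) [Field K] [NumberField K], ∃ C : ℝ, ∀ Q : ℕ, 1 ≤ Q →
    (∑ v ∈ pls K Q, Real.log (Ideal.absNorm v.asIdeal) / Ideal.absNorm v.asIdeal ≤
      C * (1 + Real.log Q)) ∧
    (∑ v ∈ (pls K Q).filter fun v => ¬ (Ideal.absNorm v.asIdeal).Prime,
      Real.log (Ideal.absNorm v.asIdeal) / Ideal.absNorm v.asIdeal ≤ C)

end Pool.Agent.Q267.AP
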