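import Pool.Agent.Q267.AP.Conc
import Pool.Agent.Q267.ST.HCount

/-!
# Families with an arrangement at a point or at infinity
-/

set_option autoImplicit false

open Finset

namespace Pool.Agent.Q267.AP

open Pool.Agent.Q267.ST
open Pool.Agent.Q267.DC (hm hm_map det_hm_map)

lemma det_ev {ι J k : Type} [Fintype J] [DecidableEq J] [Fintype ι] [DecidableEq ι] [CommRing k]
    (e p : ℕ) (w : J → ι →₀ ℕ) (z : k) (F : MvPolynomial ι (Polynomial k)) :
    (hm e p w (MvPolynomial.map (Polynomial.evalRingHom z) F)).det =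
      (hm e p w F).det.eval z := by
  rw [det_hm_map (Polynomial.evalRingHom z)]
  rfl

section

variable {n e m : ℕ} {A : Type} [CommRing A] [IsDomain A] [CharZero A]

/-- An arrangement at the point `s₀`. -/
theorem concs (hNorm : S_Norm) (hConst : S_Const) (hPerD : S_PerD) (hStar : S_Star)
    (hCharts : S_Charts) (hm12 : m = 1 ∨ m = 2) (l : Fin e → Fin (n + 1) → A)
    (hl : ∀ σ : Fin (n + 1) → Fin e, Function.Injective σ →
      IsUnit (Matrix.of fun i j => l (σ i) j).det) (μ : A) (hμ : (m : A) ^ 2 * μ = 1)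
    (f : MvPolynomial (Fin (n + 1)) (Polynomial A)) (hf : ∀ u ∈ f.support, ∑ i, u i = m * e)
    (s₀ : A) (hf0 : MvPolynomial.map (Polynomial.evalRingHom s₀) f = (∏ i, lf (l i)) ^ m)
    (ε : ℝ) (hε : 0 < ε) :
    ∃ (p₀ : ℕ) (a : A), a ≠ 0 ∧ ∀ (p : ℕ) (k : Type) [Field k] [CharP k p] (φ : A →+* k),
      p.Prime → p₀ ≤ p → φ a ≠ 0 → φ s₀ ^ p = φ s₀ → ∀ e' : ℕ, e' * m + 1 = p →
      ∀ Z : Finset k, (∀ t ∈ Z, t ^ p = t ∧ (hm e' p (wexp n e) (MvPolynomial.map
        (Polynomial.mapRingHom φ) f)).det.eval t = 0) → (Z.card : ℝ) ≤ ε * p := by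
  classical
  set f' := MvPolynomial.map (Polynomial.compRingHom (Polynomial.X + Polynomial.C s₀)) f with hf'
  obtain ⟨p₀, a, ha, h⟩ := conc hNorm hConst hPerD hStar hCharts n e m hm12 l hl μ hμ f'
    (fun u hu => hf u (MvPolynomial.support_map_subset _ _ hu)) (by
      rw [hf', MvPolynomial.map_map, ← hf0]
      congr 2
      ext a
      · simp
      · simp) ε hε
  refine ⟨p₀, a, ha, ?_⟩
  intro p k _ _ φ hpp hp0 hφ hs e' he Z hZ
  have hfact : Fact p.Prime := ⟨hpp⟩
  have h1 := h p k φ hpp hp0 hφ e' he (Z.image fun t => t - φ s₀) (by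
    intro t ht
    obtain ⟨z, hz, rfl⟩ := mem_image.mp ht
    obtain ⟨hz1, hz2⟩ := hZ z hz
    refine ⟨by rw [sub_pow_char, hz1, hs], ?_⟩
    have h2 : MvPolynomial.map (Polynomial.mapRingHom φ) f' =
        MvPolynomial.map (Polynomial.compRingHom (Polynomial.X + Polynomial.C (φ s₀)))
          (MvPolynomial.map (Polynomial.mapRingHom φ) f) := by
      rw [hf', MvPolynomial.map_map, MvPolynomial.map_map]
      congr 2
      ext a
      · simp
      · simp
    rw [h2, det_hm_map, Polynomial.coe_compRingHom, Polynomial.eval_comp]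
    simpa using hz2)
  rwa [card_image_of_injective _ (fun x y h => sub_left_injective h)] at h1

/-- An arrangement at infinity. -/
theorem conci (hNorm : S_Norm) (hConst : S_Const) (hPerD : S_PerD) (hStar : S_Star)
    (hCharts : S_Charts) (hm12 : m = 1 ∨ m = 2) (l : Fin e → Fin (n + 1) → A)
    (hl : ∀ σ : Fin (n + 1) → Fin e, Function.Injective σ →
      IsUnit (Matrix.of fun i j => l (σ i) j).det) (μ : A) (hμ : (m : A) ^ 2 * μ = 1)
    (f : MvPolynomial (Fin (n + 1)) (Polynomial A)) (hf : ∀ u ∈ f.support, ∑ i, u i = m * e)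
    (d : ℕ) (hd : ∀ u, (MvPolynomial.coeff u f).natDegree ≤ d)
    (hfd : ∀ u, (MvPolynomial.coeff u f).coeff d = MvPolynomial.coeff u ((∏ i, lf (l i)) ^ m))
    (ε : ℝ) (hε : 0 < ε) :
    ∃ (p₀ : ℕ) (a : A), a ≠ 0 ∧ ∀ (p : ℕ) (k : Type) [Field k] [CharP k p] (φ : A →+* k),
      p.Prime → p₀ ≤ p → φ a ≠ 0 → ∀ e' : ℕ, e' * m + 1 = p →
      ∀ Z : Finset k, (∀ t ∈ Z, t ^ p = t ∧ (hm e' p (wexp n e) (MvPolynomial.map
        (Polynomial.mapRingHom φ) f)).det.eval t = 0) → (Z.card : ℝ) ≤ ε * p := by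
  classical
  set f' : MvPolynomial (Fin (n + 1)) (Polynomial A) :=
    ∑ u ∈ f.support, MvPolynomial.monomial u (Polynomial.reflect d (MvPolynomial.coeff u f))
    with hf'
  have hco : ∀ v, MvPolynomial.coeff v f' = Polynomial.reflect d (MvPolynomial.coeff v f) := by
    intro v
    rw [hf', MvPolynomial.coeff_sum, Finset.sum_eq_single v]
    · rw [MvPolynomial.coeff_monomial, if_pos rfl]
    · intro u _ hu
      rw [MvPolynomial.coeff_monomial, if_neg hu]
    · intro hv
      rw [MvPolynomial.notMem_support_iff.mp hv]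
      simp
  obtain ⟨p₀, a, ha, h⟩ := conc hNorm hConst hPerD hStar hCharts n e m hm12 l hl μ hμ f'
    (fun u hu => by
      apply hf u
      rw [MvPolynomial.mem_support_iff, hco] at hu
      rw [MvPolynomial.mem_support_iff]
      intro h0
      rw [h0, Polynomial.reflect_zero] at hu
      exact hu rfl) (by
      ext1 v
      rw [MvPolynomial.coeff_map, hco, Polynomial.coe_evalRingHom,
        ← Polynomial.coeff_zero_eq_eval_zero, Polynomial.coeff_reflect, ← hfd v]
      rw [Polynomial.revAt_le (Nat.zero_le _), Nat.sub_zero]) (ε / 2) (by positivity)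
  refine ⟨max p₀ ⌈2 / ε⌉₊, a, ha, ?_⟩
  intro p k _ _ φ hpp hp0 hφ e' he Z hZ
  have hfact : Fact p.Prime := ⟨hpp⟩
  have hp1 : p₀ ≤ p := (le_max_left _ _).trans hp0
  have hp2 : 2 / ε ≤ (p : ℝ) := (Nat.le_ceil _).trans (by exact_mod_cast (le_max_right _ _).trans hp0)
  have h1 := h p k φ hpp hp1 hφ e' he ((Z.erase 0).image fun t => t⁻¹) (by
    intro t ht
    obtain ⟨z, hz, rfl⟩ := mem_image.mp ht
    obtain ⟨hz0, hz'⟩ := mem_erase.mp hz
    obtain ⟨hz1, hz2⟩ := hZ z hz'
    refine ⟨by rw [inv_pow, hz1], ?_⟩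
    have h3 : MvPolynomial.map (Polynomial.evalRingHom z)
        (MvPolynomial.map (Polynomial.mapRingHom φ) f) =
        MvPolynomial.C (z ^ d) * MvPolynomial.map (Polynomial.evalRingHom z⁻¹)
        (MvPolynomial.map (Polynomial.mapRingHom φ) f') := by
      ext1 v
      rw [MvPolynomial.coeff_C_mul, MvPolynomial.coeff_map, MvPolynomial.coeff_map,
        MvPolynomial.coeff_map, MvPolynomial.coeff_map, hco]
      simp only [Polynomial.coe_evalRingHom, Polynomial.coe_mapRingHom, Polynomial.eval_map]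
      have : Invertible z := invertibleOfNonzero hz0
      have h4 := Polynomial.eval₂_reflect_mul_pow φ z d (MvPolynomial.coeff v f) (hd v)
      rw [invOf_eq_inv] at h4
      rw [← h4, mul_comm]
    have h5 := congrArg (fun F => (hm e' p (wexp n e) F).det) h3
    rw [Hom.hm_C_mul, det_ev, det_ev, hz2] at h5
    rcases mul_eq_zero.mp h5.symm with h6 | h6
    · exact absurd h6 (pow_ne_zero _ (pow_ne_zero _ (pow_ne_zero _ hz0)))
    · exact h6)
  rw [card_image_of_injective _ inv_injective] at h1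
  have h2 : (Z.card : ℝ) ≤ (Z.erase 0).card + 1 := by
    have := pred_card_le_card_erase (s := Z) (a := (0 : k))
    have h3 : Z.card ≤ (Z.erase 0).card + 1 := by omega
    exact_mod_cast h3
  have h3 : 2 ≤ p * ε := by
    rwa [div_le_iff₀ hε] at hp2
  linarith

end

end Pool.Agent.Q267.AP
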